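import Pool.Agent.Lib.MP_5de024_nt.S.AsX.Zs

/-!
# Killing conjugates by differences (part AS of project AB3, piece Comb)
-/

set_option autoImplicit false
set_option linter.unusedSectionVars false

namespace Pool.Agent.AB3

/-- relations between the elements `v γ a` modulo constants and `n`-th powers -/
def RelN {L G A : Type} [Field L] (cs : Subfield L) (n : ℕ) (v : G → A → L)
    (E : G → A → ℤ) : Prop :=
  ∃ c w : L, c ∈ cs ∧ c ≠ 0 ∧ w ≠ 0 ∧ (∏ᶠ γ, ∏ᶠ a, v γ a ^ E γ a) = c * w ^ n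

private theorem Comb_sub {L G A : Type} [Field L] [Finite G] [Finite A] (cs : Subfield L) (n : ℕ)
    (v : G → A → L) (hv : ∀ γ a, v γ a ≠ 0) (E F : G → A → ℤ) (hE : RelN cs n v E)
    (hF : RelN cs n v F) : RelN cs n v (fun γ a => E γ a - F γ a) := by
  letI := Fintype.ofFinite G
  letI := Fintype.ofFinite A
  obtain ⟨c, w, hc, hc0, hw, h⟩ := hE
  obtain ⟨d, u, hd, hd0, hu, h'⟩ := hF
  refine ⟨c / d, w / u, div_mem hc hd, div_ne_zero hc0 hd0, div_ne_zero hw hu, ?_⟩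
  simp only [finprod_eq_prod_of_fintype] at *
  have h1 : ∀ γ a, v γ a ^ (E γ a - F γ a) = v γ a ^ E γ a / v γ a ^ F γ a :=
    fun γ a => zpow_sub₀ (hv γ a) _ _
  simp only [h1, Finset.prod_div_distrib]
  rw [h, h', div_pow]
  field_simp

private theorem Comb_tr {L G A I : Type} [Field L] [Finite G] [AddCommGroup A] [Finite A]
    (cs : Subfield L) (n : ℕ) (v : G → A → L) (τ : I → (L →+* L))
    (hτc : ∀ c, ∀ x ∈ cs, τ c x ∈ cs) (s : G → I → A)
    (hτ : ∀ c γ a, τ c (v γ a) = v γ (a + s γ c)) (c : I)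
    (E : G → A → ℤ) (hE : RelN cs n v E) : RelN cs n v (fun γ a => E γ (a - s γ c)) := by
  letI := Fintype.ofFinite G
  letI := Fintype.ofFinite A
  obtain ⟨d, w, hd, hd0, hw, h⟩ := hE
  refine ⟨τ c d, τ c w, hτc c d hd, (map_ne_zero _).mpr hd0, (map_ne_zero _).mpr hw, ?_⟩
  simp only [finprod_eq_prod_of_fintype] at *
  rw [← map_pow, ← map_mul, ← h, map_prod]
  refine Finset.prod_congr rfl fun γ _ => ?_
  rw [map_prod]
  refine (Fintype.prod_equiv (Equiv.addRight (s γ c)) _ _ fun a => ?_).symm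
  rw [map_zpow₀, hτ]
  show _ = v γ (a + s γ c) ^ E γ (a + s γ c - s γ c)
  rw [add_sub_cancel_right]

private theorem Comb_dif {L G A I : Type} [Field L] [Finite G] [AddCommGroup A] [Finite A]
    (cs : Subfield L) (n : ℕ) (v : G → A → L) (hv : ∀ γ a, v γ a ≠ 0) (τ : I → (L →+* L))
    (hτc : ∀ c, ∀ x ∈ cs, τ c x ∈ cs) (s : G → I → A)
    (hτ : ∀ c γ a, τ c (v γ a) = v γ (a + s γ c)) (c : I)
    (E : G → A → ℤ) (hE : RelN cs n v E) : RelN cs n v (fun γ => dif (s γ c) (E γ)) :=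
  Comb_sub cs n v hv _ _ (Comb_tr cs n v τ hτc s hτ c E hE) hE

/-- Relations are closed under differences and under `E γ a ↦ E γ (a - s γ c)` (apply `τ c` to the
relation and reindex). Order the elements `f ≠ φ0` of `Φ` and choose `c f` from `hsep`; apply
`E ↦ (T_c - 1) E` for all of them: induction on a finset `T ⊆ Φ ∖ {φ0}` with the statement: there
is `E'` with `RelN E'`, `E' γ = 0` for `φ γ ∈ T` and `E' γ = (dif t)^[T.card] (E γ)` for `φ γ = φ0`. -/
theorem as_comb {L G A Φ I : Type} [Field L] [Finite G] [AddCommGroup A] [Finite A] [Finite Φ]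
    (cs : Subfield L) (n : ℕ) (v : G → A → L) (hv : ∀ γ a, v γ a ≠ 0) (τ : I → (L →+* L))
    (hτc : ∀ c, ∀ x ∈ cs, τ c x ∈ cs) (s : G → I → A)
    (hτ : ∀ c γ a, τ c (v γ a) = v γ (a + s γ c)) (φ : G → Φ) (φ0 : Φ) (t : A)
    (hsep : ∀ f : Φ, f ≠ φ0 → ∃ c, ∀ γ, (φ γ = f → s γ c = 0) ∧ (φ γ = φ0 → s γ c = t))
    (E : G → A → ℤ) (hE : RelN cs n v E) :
    ∃ (l : ℕ) (E' : G → A → ℤ), RelN cs n v E' ∧ (∀ γ, φ γ ≠ φ0 → E' γ = fun _ => 0) ∧
      ∀ γ, φ γ = φ0 → E' γ = (dif t)^[l] (E γ) := by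
  classical
  have key : ∀ T : Finset Φ, φ0 ∉ T → ∃ E' : G → A → ℤ, RelN cs n v E' ∧
      (∀ γ, φ γ ∈ T → E' γ = fun _ => 0) ∧ ∀ γ, φ γ = φ0 → E' γ = (dif t)^[T.card] (E γ) := by
    intro T
    induction T using Finset.induction_on with
    | empty =>
      intro _
      exact ⟨E, hE, fun γ hγ => absurd hγ (Finset.notMem_empty _), fun γ _ => rfl⟩
    | insert f T hf ih =>
      intro hT
      rw [Finset.mem_insert, not_or] at hT
      obtain ⟨E1, h1, h2, h3⟩ := ih hT.2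
      obtain ⟨c, hc⟩ := hsep f (fun h => hT.1 h.symm)
      refine ⟨fun γ => dif (s γ c) (E1 γ), Comb_dif cs n v hv τ hτc s hτ c E1 h1, ?_, ?_⟩
      · intro γ hγ
        rcases Finset.mem_insert.mp hγ with h | h
        · funext a
          show E1 γ (a - s γ c) - E1 γ a = 0
          rw [(hc γ).1 h, sub_zero, sub_self]
        · funext a
          show E1 γ (a - s γ c) - E1 γ a = 0
          rw [h2 γ h, sub_zero]
      · intro γ hγ
        show dif (s γ c) (E1 γ) = _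
        rw [(hc γ).2 hγ, h3 γ hγ, Finset.card_insert_of_notMem hf, Function.iterate_succ_apply']
  letI := Fintype.ofFinite Φ
  obtain ⟨E', h1, h2, h3⟩ := key (Finset.univ.erase φ0) (Finset.notMem_erase _ _)
  exact ⟨_, E', h1, fun γ hγ => h2 γ (Finset.mem_erase.mpr ⟨hγ, Finset.mem_univ _⟩), h3⟩

end Pool.Agent.AB3
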