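import Pool.Agent.Lib.MP_5de024_nt.S.AsX.Th

/-!
# Relations descend to the family (part AS of project AB3, piece Down)
-/

set_option autoImplicit false
set_option linter.unusedSectionVars false

namespace Pool.Agent.AB3

open Pool.Agent.AB Polynomial

/-- Take the product of the relation over all translations `tau c`, `c` in the kernel of
`trP (-β²)` (a finite group of order `P ^ (m - 1)`: `trP_ker`): the left side is fixed by them
(`h4`, `tau_act`), `N = ∏ tau c w` is fixed (`tau_tau`), so `N = Θ w'` (`hfix`). By `hinj` this is a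
relation in the family with the exponents `e h a * P ^ (m - 1)` and the constant
`c ^ P ^ (m - 1)`: `hgood`; `P ^ (m - 1)` is prime to `n`. -/
theorem as_down {k R H : Type} [Field k] [CommRing R] [Algebra k[X] R] [Group H] [Finite H]
    {F : Type} [Field F] [Finite F] [Algebra k F] (p : ℕ) [Fact p.Prime] [CharP F p]
    (C' : Cov k R H) (s m : ℕ) (hs : 0 < s) (hm : 0 < m) (hF : Nat.card F = (p ^ s) ^ m)
    (β : F) (hβ : β ≠ 0) (n : ℕ) (hn : n.Coprime p)
    [Finite {a : k // a ^ p ^ s = a}]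
    (Θ : Fam k F (gb F (p ^ s) β) R →+* Fam k F (gq F) R) (hinj : Function.Injective Θ)
    (halg : ∀ f : F[X], Θ (algebraMap F[X] (Fam k F (gb F (p ^ s) β) R) f) =
        algebraMap F[X] (Fam k F (gq F) R) (f.comp (C β⁻¹ * trP (p ^ s) m (-β ^ 2))))
    (hΘ : ∀ h z, Θ (Bs.act (evg k F (gb F (p ^ s) β)) C'.act h z) =
        Bs.act (evg k F (gq F)) C'.act h (Θ z))
    (hfix : ∀ z, (∀ c : F, (trP (p ^ s) m (-β ^ 2)).eval c = 0 → tau k R c z = z) →
        ∃ z', Θ z' = z)
    (h4 : ∀ c : F, (trP (p ^ s) m (-β ^ 2)).eval c = 0 → ∀ z, tau k R c (Θ z) = Θ z)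
    (u : Fam k F (gb F (p ^ s) β) R)
    (sh : {a : k // a ^ p ^ s = a} → (Fam k F (gb F (p ^ s) β) R →+* Fam k F (gb F (p ^ s) β) R))
    (hgood : ∀ (E : H → {a : k // a ^ p ^ s = a} → ℕ) (c : F)
      (w : Fam k F (gb F (p ^ s) β) R), c ≠ 0 →
        (∏ᶠ h : H, ∏ᶠ a, (Bs.act (evg k F (gb F (p ^ s) β)) C'.act h (sh a u)) ^ E h a) =
          algebraMap F[X] (Fam k F (gb F (p ^ s) β) R) (Polynomial.C c) * w ^ n →
        ∀ a h h', E h a ≡ E h' a [MOD n])
    (e : H → {a : k // a ^ p ^ s = a} → ℕ) (c : F) (hc : c ≠ 0) (w : Fam k F (gq F) R)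
    (hrel : (∏ᶠ h : H, ∏ᶠ a, (Bs.act (evg k F (gq F)) C'.act h (Θ (sh a u))) ^ e h a) =
      algebraMap F[X] (Fam k F (gq F) R) (Polynomial.C c) * w ^ n) :
    ∀ a h h', e h a ≡ e h' a [MOD n] := by
  classical
  have : Fintype H := Fintype.ofFinite H
  have : Fintype {a : k // a ^ p ^ s = a} := Fintype.ofFinite _
  have : Finite {c : F // (trP (p ^ s) m (-β ^ 2)).eval c = 0} := inferInstance
  have : Fintype {c : F // (trP (p ^ s) m (-β ^ 2)).eval c = 0} := Fintype.ofFinite _
  have hb : (-β ^ 2 : F) ≠ 0 := neg_ne_zero.2 (pow_ne_zero 2 hβ)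
  have hcard : Fintype.card {c : F // (trP (p ^ s) m (-β ^ 2)).eval c = 0} =
      (p ^ s) ^ (m - 1) := by
    rw [← Nat.card_eq_fintype_card]
    exact trP_ker p s m hs hm hF (-β ^ 2) hb
  have hadd : ∀ c d : F, (trP (p ^ s) m (-β ^ 2)).eval (c + d) =
      (trP (p ^ s) m (-β ^ 2)).eval c + (trP (p ^ s) m (-β ^ 2)).eval d := by
    intro c d
    have h1 := congrArg (Polynomial.eval c) (trP_comp p s m (-β ^ 2) d)
    rw [eval_comp, eval_add, eval_X, eval_C, eval_add, eval_C] at h1
    exact h1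
  -- products as finite products
  have hprod : ∀ (S : Type) [CommRing S] (f : H → {a : k // a ^ p ^ s = a} → S),
      (∏ᶠ h : H, ∏ᶠ a, f h a) = ∏ h : H, ∏ a, f h a := by
    intro S _ f
    rw [finprod_eq_prod_of_fintype]
    exact Finset.prod_congr rfl fun h _ => finprod_eq_prod_of_fintype _
  rw [hprod] at hrel
  -- the left side is invariant
  have hinv : ∀ c1 : F, (trP (p ^ s) m (-β ^ 2)).eval c1 = 0 →
      tau k R c1 (∏ h : H, ∏ a, (Bs.act (evg k F (gq F)) C'.act h (Θ (sh a u))) ^ e h a) =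
        ∏ h : H, ∏ a, (Bs.act (evg k F (gq F)) C'.act h (Θ (sh a u))) ^ e h a := by
    intro c1 hc1
    rw [map_prod]
    refine Finset.prod_congr rfl fun h _ => ?_
    rw [map_prod]
    refine Finset.prod_congr rfl fun a _ => ?_
    rw [map_pow, tau_act, h4 c1 hc1]
  have hrel1 : ∀ c1 : F, (trP (p ^ s) m (-β ^ 2)).eval c1 = 0 →
      (∏ h : H, ∏ a, (Bs.act (evg k F (gq F)) C'.act h (Θ (sh a u))) ^ e h a) =
        algebraMap F[X] (Fam k F (gq F) R) (Polynomial.C c) * tau k R c1 w ^ n := by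
    intro c1 hc1
    have h1 := congrArg (tau k R c1) hrel
    rw [hinv c1 hc1, map_mul, map_pow, tau_alg, C_comp] at h1
    exact h1
  -- the norm of `w`
  obtain ⟨w', hw'⟩ := hfix
    (∏ d : {c : F // (trP (p ^ s) m (-β ^ 2)).eval c = 0}, tau k R (d : F) w) (by
      intro c1 hc1
      rw [map_prod]
      let eq : {c : F // (trP (p ^ s) m (-β ^ 2)).eval c = 0} ≃
          {c : F // (trP (p ^ s) m (-β ^ 2)).eval c = 0} :=
        { toFun := fun d => ⟨c1 + d, by rw [hadd, hc1, d.2, add_zero]⟩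
          invFun := fun d => ⟨-c1 + d, by
            have h2 := hadd c1 (-c1 + d)
            rw [← add_assoc, add_neg_cancel, zero_add, hc1, zero_add, d.2] at h2
            exact h2.symm⟩
          left_inv := fun d => Subtype.ext (by
            show -c1 + (c1 + (d : F)) = d
            rw [neg_add_cancel_left])
          right_inv := fun d => Subtype.ext (by
            show c1 + (-c1 + (d : F)) = d
            rw [add_neg_cancel_left]) }
      refine Fintype.prod_equiv eq _ _ fun d => ?_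
      exact tau_tau c1 (d : F) w)
  -- the relation in the family
  have hfam : (∏ᶠ h : H, ∏ᶠ a, (Bs.act (evg k F (gb F (p ^ s) β)) C'.act h (sh a u)) ^
      (e h a * (p ^ s) ^ (m - 1))) =
      algebraMap F[X] (Fam k F (gb F (p ^ s) β) R)
        (Polynomial.C (c ^ (p ^ s) ^ (m - 1))) * w' ^ n := by
    apply hinj
    rw [hprod, map_mul, halg, C_comp, map_pow Θ, hw', map_prod]
    have h1 : (∏ h : H, Θ (∏ a, (Bs.act (evg k F (gb F (p ^ s) β)) C'.act h (sh a u)) ^
        (e h a * (p ^ s) ^ (m - 1)))) =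
        (∏ h : H, ∏ a, (Bs.act (evg k F (gq F)) C'.act h (Θ (sh a u))) ^ e h a) ^
          (p ^ s) ^ (m - 1) := by
      rw [← Finset.prod_pow]
      refine Finset.prod_congr rfl fun h _ => ?_
      rw [map_prod, ← Finset.prod_pow]
      refine Finset.prod_congr rfl fun a _ => ?_
      rw [map_pow, hΘ, pow_mul]
    rw [h1]
    have h2 : (∏ h : H, ∏ a, (Bs.act (evg k F (gq F)) C'.act h (Θ (sh a u))) ^ e h a) ^
        (p ^ s) ^ (m - 1) =
        ∏ d : {c : F // (trP (p ^ s) m (-β ^ 2)).eval c = 0},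
          (algebraMap F[X] (Fam k F (gq F) R) (Polynomial.C c) * tau k R (d : F) w ^ n) := by
      rw [← hcard, ← Finset.card_univ, ← Finset.prod_const]
      exact Finset.prod_congr rfl fun d _ => hrel1 d d.2
    rw [h2, Finset.prod_mul_distrib, Finset.prod_const, Finset.card_univ, hcard,
      Finset.prod_pow, C_pow, map_pow]
  intro a h h'
  have h1 := hgood (fun h a => e h a * (p ^ s) ^ (m - 1)) _ w' (pow_ne_zero _ hc) hfam a h h'
  exact Nat.ModEq.cancel_right_of_coprime
    (Nat.Coprime.pow_right _ (Nat.Coprime.pow_right _ hn)) h1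

end Pool.Agent.AB3
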