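import Pool.Agent.Lib.MP_5de024_nt.S.AsX.TrA

/-!
# The trace polynomial: kernel, invariants, separation (part AS of project AB3, piece TrB)
-/

set_option autoImplicit false
set_option linter.unusedSectionVars false

namespace Pool.Agent.AB3

open Pool.Agent.AB Polynomial

variable {F : Type} [Field F] [Finite F] (p : ℕ) [Fact p.Prime] [CharP F p]

private theorem TrB_P (s : ℕ) (hs : 0 < s) : 2 ≤ p ^ s :=
  (Fact.out : p.Prime).two_le.trans (Nat.le_self_pow hs.ne' p)

/-- the coefficients -/
private theorem TrB_coeff (P m j : ℕ) (hP : 2 ≤ P) (hj : j < m) (b : F) :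
    (trP P m b).coeff (P ^ j) = b ^ P ^ j := by
  unfold trP
  rw [finsetSum_coeff, Finset.sum_eq_single j]
  · rw [mul_pow, ← C_pow, coeff_C_mul, coeff_X_pow, if_pos rfl, mul_one]
  · intro i _ hij
    rw [mul_pow, ← C_pow, coeff_C_mul, coeff_X_pow, if_neg, mul_zero]
    intro h
    exact hij (Nat.pow_right_injective hP h).symm
  · intro h
    exact absurd (Finset.mem_range.2 hj) h

/-- the degree -/
theorem trP_natDegree (s m : ℕ) (hs : 0 < s) (hm : 0 < m) (b : F) (hb : b ≠ 0) :
    (trP (p ^ s) m b).natDegree = (p ^ s) ^ (m - 1) := by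
  have hP := TrB_P p s hs
  refine natDegree_eq_of_le_of_coeff_ne_zero ?_ ?_
  · unfold trP
    refine natDegree_sum_le_of_forall_le _ _ fun i hi => ?_
    rw [Finset.mem_range] at hi
    rw [mul_pow, ← C_pow]
    refine (natDegree_C_mul_X_pow_le _ _).trans ?_
    exact Nat.pow_le_pow_right (by omega) (by omega)
  · rw [TrB_coeff (p ^ s) m (m - 1) hP (by omega) b]
    exact pow_ne_zero _ hb

private theorem TrB_ne (s m : ℕ) (hs : 0 < s) (hm : 0 < m) (b : F) (hb : b ≠ 0) :
    trP (p ^ s) m b ≠ 0 := by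
  intro h
  have h1 := TrB_coeff (F := F) (p ^ s) m 0 (TrB_P p s hs) hm b
  rw [h, coeff_zero] at h1
  exact pow_ne_zero _ hb h1.symm

/-- the additive map -/
private noncomputable def TrB_T (s m : ℕ) (b : F) : F →+ F where
  toFun c := (trP (p ^ s) m b).eval c
  map_zero' := by
    have h1 := congrArg (eval 0) (trP_comp p s m b (0 : F))
    rw [eval_comp, eval_add, eval_add, eval_X, eval_C, eval_C, add_zero] at h1
    exact left_eq_add.1 h1
  map_add' := fun x c => by
    have h1 := congrArg (eval x) (trP_comp p s m b c)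
    rw [eval_comp, eval_add, eval_add, eval_X, eval_C, eval_C] at h1
    exact h1

/-- the kernel of `c ↦ (trP b).eval c` has `P ^ (m - 1)` elements: at most the degree; on the other
hand it is an additive map with values in `{a | a ^ P = a}`, which has at most `P` elements -/
theorem trP_ker (s m : ℕ) (hs : 0 < s) (hm : 0 < m) (hF : Nat.card F = (p ^ s) ^ m) (b : F)
    (hb : b ≠ 0) : Nat.card {c : F // (trP (p ^ s) m b).eval c = 0} = (p ^ s) ^ (m - 1) := by
  classical
  haveI : Fintype F := Fintype.ofFinite F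
  have hP := TrB_P p s hs
  have hne := TrB_ne p s m hs hm b hb
  refine le_antisymm ?_ ?_
  · have h1 : Nat.card {c : F // (trP (p ^ s) m b).eval c = 0} =
        (trP (p ^ s) m b).roots.toFinset.card := by
      rw [Nat.card_eq_fintype_card, Fintype.card_subtype]
      congr 1
      ext c
      rw [Finset.mem_filter, Multiset.mem_toFinset, mem_roots hne, IsRoot.def]
      simp
    rw [h1, ← trP_natDegree p s m hs hm b hb]
    exact (Multiset.toFinset_card_le _).trans (card_roots' _)
  · have h1 : Nat.card (TrB_T p s m b).ker = Nat.card {c : F // (trP (p ^ s) m b).eval c = 0} :=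
      Nat.card_congr (Equiv.subtypeEquivRight fun c => by
        rw [AddMonoidHom.mem_ker]
        rfl)
    have h2 := AddSubgroup.card_mul_index (TrB_T p s m b).ker
    rw [AddSubgroup.index_ker, h1, hF] at h2
    have h3 : Nat.card (TrB_T p s m b).range ≤ p ^ s := by
      have hX : (X ^ p ^ s - X : F[X]) ≠ 0 := FiniteField.X_pow_card_sub_X_ne_zero F (by omega)
      have h4 : Nat.card (TrB_T p s m b).range ≤ (X ^ p ^ s - X : F[X]).roots.toFinset.card := by
        rw [← Fintype.card_coe, ← Nat.card_eq_fintype_card]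
        refine Nat.card_le_card_of_injective (fun y => ⟨y.1, ?_⟩) ?_
        · obtain ⟨y, c, rfl⟩ := y
          rw [Multiset.mem_toFinset, mem_roots hX, IsRoot.def, eval_sub, eval_pow, eval_X, sub_eq_zero]
          exact trP_val p s m hm hF b c
        · intro y y' hyy
          exact Subtype.ext (congrArg (fun z => z.1) hyy)
      refine h4.trans ((Multiset.toFinset_card_le _).trans ((card_roots' _).trans ?_))
      rw [FiniteField.X_pow_card_sub_X_natDegree_eq F (by omega)]
    obtain ⟨n, rfl⟩ : ∃ n, m = n + 1 := ⟨m - 1, by omega⟩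
    rw [Nat.add_sub_cancel]
    have h5 : (p ^ s) ^ n * p ^ s ≤
        Nat.card {c : F // (trP (p ^ s) (n + 1) b).eval c = 0} * p ^ s := by
      rw [← pow_succ, ← h2]
      exact Nat.mul_le_mul_left _ h3
    exact Nat.le_of_mul_le_mul_right h5 (by omega)

/-- a polynomial vanishing on the kernel is divisible by the trace polynomial -/
private theorem TrB_dvd (s m : ℕ) (hs : 0 < s) (hm : 0 < m) (hF : Nat.card F = (p ^ s) ^ m) (b : F)
    (hb : b ≠ 0) (f : F[X]) (hf : ∀ v, (trP (p ^ s) m b).eval v = 0 → f.eval v = 0) :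
    trP (p ^ s) m b ∣ f := by
  classical
  haveI : Fintype F := Fintype.ofFinite F
  have hne := TrB_ne p s m hs hm b hb
  by_cases hf0 : f = 0
  · rw [hf0]
    exact dvd_zero _
  set L := trP (p ^ s) m b with hL
  have h1 : Nat.card {c : F // L.eval c = 0} = L.roots.toFinset.card := by
    rw [Nat.card_eq_fintype_card, Fintype.card_subtype]
    congr 1
    ext c
    rw [Finset.mem_filter, Multiset.mem_toFinset, mem_roots hne, IsRoot.def]
    simp
  have h2 : L.roots.toFinset.card = L.natDegree := by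
    rw [← h1, hL, trP_ker p s m hs hm hF b hb, trP_natDegree p s m hs hm b hb]
  have h3 : Multiset.card L.roots = L.natDegree :=
    le_antisymm (card_roots' _) (h2 ▸ Multiset.toFinset_card_le _)
  have h4 : L.roots.Nodup := by
    rw [← Multiset.toFinset_card_eq_card_iff_nodup, h2, h3]
  have h5 : (L.roots.map fun a => X - C a).prod ∣ f := by
    rw [Multiset.prod_X_sub_C_dvd_iff_le_roots hf0, Multiset.le_iff_subset h4]
    intro v hv
    rw [mem_roots hne, IsRoot.def] at hv
    rw [mem_roots hf0, IsRoot.def]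
    exact hf v hv
  obtain ⟨g, hg⟩ := h5
  have h6 := C_leadingCoeff_mul_prod_multiset_X_sub_C h3
  have hlc : L.leadingCoeff ≠ 0 := leadingCoeff_ne_zero.2 hne
  refine ⟨C L.leadingCoeff⁻¹ * g, ?_⟩
  have h7 : (C L.leadingCoeff : F[X]) * C L.leadingCoeff⁻¹ = 1 := by
    rw [← C_mul, mul_inv_cancel₀ hlc, C_1]
  have h8 : L * (C L.leadingCoeff⁻¹ * g) = (C L.leadingCoeff *
      (L.roots.map fun a => X - C a).prod) * (C L.leadingCoeff⁻¹ * g) := by
    rw [h6]
  rw [h8, hg]
  generalize (L.roots.map fun a => X - C a).prod = w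
  generalize (C L.leadingCoeff : F[X]) = u at h7 ⊢
  generalize (C L.leadingCoeff⁻¹ : F[X]) = v at h7 ⊢
  calc w * g = (u * v) * (w * g) := by rw [h7, one_mul]
    _ = u * w * (v * g) := by ring

/-- a polynomial invariant under the translations by the kernel is a polynomial in `trP b`:
induction on the degree: `f - f(0)` vanishes at all points of the kernel, these are the roots of
`trP b` (simple), so `f - f(0) = trP b * f1` with `f1` invariant (cancel `trP b`, `trP_comp`) -/
theorem trP_inv (s m : ℕ) (hs : 0 < s) (hm : 0 < m) (hF : Nat.card F = (p ^ s) ^ m) (b : F)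
    (hb : b ≠ 0) (d : F) (hd : d ≠ 0) (f : F[X])
    (hf : ∀ c, (trP (p ^ s) m b).eval c = 0 → f.comp (X + C c) = f) :
    ∃ f' : F[X], f'.comp (C d * trP (p ^ s) m b) = f := by
  have hne := TrB_ne p s m hs hm b hb
  induction hn : f.natDegree using Nat.strong_induction_on generalizing f with
  | _ n ih =>
  have h1 : trP (p ^ s) m b ∣ f - C (f.eval 0) := by
    refine TrB_dvd p s m hs hm hF b hb _ fun v hv => ?_
    have h2 := congrArg (eval 0) (hf v hv)
    rw [eval_comp, eval_add, eval_X, eval_C, zero_add] at h2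
    rw [eval_sub, eval_C, h2, sub_self]
  obtain ⟨g, hg⟩ := h1
  by_cases hg0 : g = 0
  · refine ⟨C (f.eval 0), ?_⟩
    rw [hg0, mul_zero, sub_eq_zero] at hg
    rw [C_comp]
    exact hg.symm
  · have hginv : ∀ c, (trP (p ^ s) m b).eval c = 0 → g.comp (X + C c) = g := by
      intro c hc
      have h2 := congrArg (fun q => q.comp (X + C c)) hg
      simp only [sub_comp, C_comp, mul_comp] at h2
      rw [hf c hc, trP_comp, hc, C_0, add_zero, hg] at h2
      exact (mul_left_cancel₀ hne h2).symm
    have hdeg : g.natDegree < n := by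
      have h2 : (f - C (f.eval 0)).natDegree ≤ n := by
        rw [← hn]
        exact (natDegree_sub_C).le
      rw [hg, natDegree_mul hne hg0, trP_natDegree p s m hs hm b hb] at h2
      have h3 : 0 < (p ^ s) ^ (m - 1) := by
        have := TrB_P p s hs
        positivity
      omega
    obtain ⟨g', hg'⟩ := ih g.natDegree hdeg g hginv rfl
    refine ⟨C (f.eval 0) + C d⁻¹ * X * g', ?_⟩
    rw [add_comp, mul_comp, mul_comp, C_comp, C_comp, X_comp, hg', ← mul_assoc, ← C_mul,
      inv_mul_cancel₀ hd, C_1, one_mul, ← hg]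
    ring

/-- if the kernel of `trP b1` is contained in that of `trP b2` then both kernels are equal (same
cardinality) and both polynomials are multiples of `∏ (X - v)` over the kernel, so
`trP b2 = C l * trP b1`; the coefficients at `X` and at `X ^ P ^ (m - 1)` give `b2 = l b1` and
`b2 ^ P ^ (m-1) = l b1 ^ P ^ (m-1)`, so `l ^ P ^ (m-1) = l`, `l ^ P = l ^ P ^ m = l` and `l ^ (P - 1) = 1`.
So there is `c` with `(trP b1).eval c = 0` and `μ = (trP b2).eval c ≠ 0`; `μ ^ P = μ`, and `c / μ` is the
wanted element -/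
theorem trP_sep (s m : ℕ) (hs : 0 < s) (hm : 0 < m) (hF : Nat.card F = (p ^ s) ^ m) (b1 b2 : F)
    (hb1 : b1 ≠ 0) (hb2 : b2 ≠ 0) (h : b1 ^ (p ^ s - 1) ≠ b2 ^ (p ^ s - 1)) :
    ∃ c, (trP (p ^ s) m b1).eval c = 0 ∧ (trP (p ^ s) m b2).eval c = 1 := by
  haveI : Fintype F := Fintype.ofFinite F
  have hP := TrB_P p s hs
  have hne1 := TrB_ne p s m hs hm b1 hb1
  have hne2 := TrB_ne p s m hs hm b2 hb2
  by_cases hk : ∀ v, (trP (p ^ s) m b1).eval v = 0 → (trP (p ^ s) m b2).eval v = 0
  · exfalso
    obtain ⟨g, hg⟩ := TrB_dvd p s m hs hm hF b1 hb1 _ hk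
    have hg0 : g ≠ 0 := by
      rintro rfl
      rw [mul_zero] at hg
      exact hne2 hg
    have h1 := congrArg natDegree hg
    rw [natDegree_mul hne1 hg0, trP_natDegree p s m hs hm b1 hb1, trP_natDegree p s m hs hm b2 hb2] at h1
    have h2 : g.natDegree = 0 := by omega
    obtain ⟨l, rfl⟩ := natDegree_eq_zero.1 h2
    have h3 := congrArg (fun q => q.coeff ((p ^ s) ^ 0)) hg
    have h4 := congrArg (fun q => q.coeff ((p ^ s) ^ (m - 1))) hg
    simp only [coeff_mul_C] at h3 h4
    rw [TrB_coeff (p ^ s) m 0 hP hm, TrB_coeff (p ^ s) m 0 hP hm, pow_zero, pow_one, pow_one] at h3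
    rw [TrB_coeff (p ^ s) m (m - 1) hP (by omega), TrB_coeff (p ^ s) m (m - 1) hP (by omega), h3,
      mul_pow] at h4
    have hl0 : l ≠ 0 := by
      rintro rfl
      rw [mul_zero] at h3
      exact hb2 h3
    have h5 : l ^ (p ^ s) ^ (m - 1) = l := mul_left_cancel₀ (pow_ne_zero _ hb1) h4
    have h6 : l ^ p ^ s = l := by
      have h7 : l ^ (p ^ s) ^ m = l := by
        rw [← hF, Nat.card_eq_fintype_card]
        exact FiniteField.pow_card l
      have h8 : (p ^ s) ^ m = (p ^ s) ^ (m - 1) * p ^ s := by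
        rw [← pow_succ]
        congr 1
        omega
      rw [h8, pow_mul, h5] at h7
      exact h7
    have h7 : l ^ (p ^ s - 1) = 1 := by
      have h8 : l ^ (p ^ s - 1) * l = 1 * l := by
        rw [← pow_succ, one_mul, Nat.sub_add_cancel (by omega)]
        exact h6
      exact mul_right_cancel₀ hl0 h8
    apply h
    rw [h3, mul_pow, h7, mul_one]
  · push Not at hk
    obtain ⟨v, hv1, hv2⟩ := hk
    set μ := (trP (p ^ s) m b2).eval v with hμ
    have hμP : μ ^ p ^ s = μ := trP_val p s m hm hF b2 v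
    have hinv : μ⁻¹ ^ p ^ s = μ⁻¹ := by rw [inv_pow, hμP]
    have hpow : ∀ i : ℕ, μ⁻¹ ^ (p ^ s) ^ i = μ⁻¹ := by
      intro i
      induction i with
      | zero => rw [pow_zero, pow_one]
      | succ i ih => rw [pow_succ, pow_mul, ih, hinv]
    have hsc : ∀ b : F, (trP (p ^ s) m b).eval (v * μ⁻¹) = (trP (p ^ s) m b).eval v * μ⁻¹ := by
      intro b
      rw [trP_eval, trP_eval, Finset.sum_mul]
      refine Finset.sum_congr rfl fun i _ => ?_
      rw [← mul_assoc, mul_pow, hpow]
    refine ⟨v * μ⁻¹, ?_, ?_⟩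
    · rw [hsc, hv1, zero_mul]
    · rw [hsc, ← hμ, mul_inv_cancel₀ hv2]

/-- every automorphism of a finite field is a power of the Frobenius map -/
theorem aut_id (φ : F ≃+* F) (z0 : F)
    (hgen : ∀ j : ℕ, z0 ^ p ^ j = z0 → ∀ z : F, z ^ p ^ j = z) (h : φ z0 = z0) :
    ∀ z, φ z = z := by
  letI : Algebra (ZMod p) F := ZMod.algebra F p
  let ψ : F ≃ₐ[ZMod p] F := AlgEquiv.ofRingEquiv (f := φ) fun a =>
    RingHom.congr_fun (Subsingleton.elim ((φ : F →+* F).comp (algebraMap (ZMod p) F)) (algebraMap (ZMod p) F)) a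
  obtain ⟨n, hn⟩ := (FiniteField.bijective_frobeniusAlgEquivOfAlgebraic_pow (ZMod p) F).2 ψ
  have h1 : ∀ z, φ z = z ^ p ^ n.1 := by
    intro z
    have h2 : ψ z = (FiniteField.frobeniusAlgEquivOfAlgebraic (ZMod p) F ^ n.1) z := by
      rw [← hn]
    have h3 : φ z = ψ z := rfl
    rw [h3, h2, AlgEquiv.coe_pow, FiniteField.coe_frobeniusAlgEquivOfAlgebraic_iterate, ZMod.card]
  intro z
  rw [h1]
  exact hgen n.1 (by rw [← h1, h]) z

end Pool.Agent.AB3
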