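import Pool.Agent.Lib.MP_5de024_nt.S.GeoM
import Pool.Agent.Lib.MP_5de024_nt.S.AsX.TrB

/-!
# The family inside the cover of `F[X]` (part AS of project AB3, piece Th)
-/

set_option autoImplicit false
set_option linter.unusedSectionVars false

namespace Pool.Agent.AB3

open Pool.Agent.AB Polynomial

/-- the substitution `X ↦ X ^ q - X` -/
noncomputable abbrev gq (F : Type) [Field F] : F[X] := X ^ Nat.card F - X

theorem gq_comp {F : Type} [Field F] [Finite F] (c : F) : (gq F).comp (X + C c) = gq F := by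
  have := Fintype.ofFinite F
  obtain ⟨p, hp, n, hpp, hn⟩ := FiniteField.card' (K := F)
  have : Fact p.Prime := ⟨hpp⟩
  have hc : c ^ Nat.card F = c := by
    rw [Nat.card_eq_fintype_card]
    exact FiniteField.pow_card c
  have hadd : (X + C c : F[X]) ^ Nat.card F = X ^ Nat.card F + C c := by
    have h1 : (X + C c : F[X]) ^ Nat.card F = X ^ Nat.card F + C c ^ Nat.card F := by
      rw [Nat.card_eq_fintype_card, hn]
      exact add_pow_char_pow (p := p) (n := (n : ℕ)) X (C c : F[X])
    rw [h1, ← C_pow, hc]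
  rw [gq, sub_comp, pow_comp, X_comp, hadd]
  ring

theorem evg_comp {k F : Type} [Field k] [Field F] [Algebra k F] (g h : F[X]) (f : k[X]) :
    (evg k F g f).comp h = evg k F (g.comp h) f := by
  have e : (compRingHom h).comp (evg k F g) = evg k F (g.comp h) := by
    apply Polynomial.ringHom_ext
    · intro a
      rw [RingHom.comp_apply, coe_compRingHom_apply]
      simp [evg]
    · rw [RingHom.comp_apply, coe_compRingHom_apply]
      simp [evg]
  exact RingHom.congr_fun e f

variable {k R H : Type} [Field k] [CommRing R] [Algebra k[X] R] [Group H] [Finite H]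
  {F : Type} [Field F] [Finite F] [Algebra k F]

/-- the translation `x ↦ x + c` of the cover of `F[x]` -/
noncomputable def tau (k R : Type) [Field k] [CommRing R] [Algebra k[X] R] {F : Type} [Field F]
    [Finite F] [Algebra k F] (c : F) : Fam k F (gq F) R →+* Fam k F (gq F) R :=
  Bs.map (evg k F (gq F)) (compRingHom (X + C c)) (evg k F (gq F)) (fun f => by
    rw [coe_compRingHom_apply, evg_comp, gq_comp])

theorem tau_alg (c : F) (f : F[X]) : tau k R c (algebraMap F[X] (Fam k F (gq F) R) f) =
    algebraMap F[X] (Fam k F (gq F) R) (f.comp (X + C c)) :=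
  Bs.map_alg _ _ _ _ _

theorem tau_inR (c : F) (r : R) : tau k R c (Bs.inR (evg k F (gq F)) R r) =
    Bs.inR (evg k F (gq F)) R r :=
  Bs.map_inR _ _ _ _ _

theorem tau_tau (c d : F) (z : Fam k F (gq F) R) : tau k R c (tau k R d z) = tau k R (c + d) z := by
  have e : (tau k R c).comp (tau k R d) = tau k R (c + d) := by
    apply Bs.hom_ext
    · intro f
      rw [RingHom.comp_apply, tau_alg, tau_alg, tau_alg, comp_assoc, add_comp, X_comp, C_comp,
        add_assoc, ← C_add]
    · intro r
      rw [RingHom.comp_apply, tau_inR, tau_inR, tau_inR]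
  exact RingHom.congr_fun e z

theorem tau_zero (z : Fam k F (gq F) R) : tau k R (0 : F) z = z := by
  have e : tau k R (0 : F) = RingHom.id (Fam k F (gq F) R) := by
    apply Bs.hom_ext
    · intro f
      rw [tau_alg, C_0, add_zero, comp_X, RingHom.id_apply]
    · intro r
      rw [tau_inR, RingHom.id_apply]
  exact RingHom.congr_fun e z

theorem tau_act (C' : Cov k R H) (c : F) (h : H) (z : Fam k F (gq F) R) :
    tau k R c (Bs.act (evg k F (gq F)) C'.act h z) =
      Bs.act (evg k F (gq F)) C'.act h (tau k R c z) :=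
  bs_map_act C' _ _ _ _ h z

/-- `Θ = Bs.map` of `X ↦ β⁻¹ trP (-β²)` (`tr_gb`); injective by `bs_map_inj` (the substitution is
injective since the degree is positive), commutes with the action by `bs_map_act`. The image: an
element fixed by the translations by the kernel has invariant coordinates in a basis of `R`
(`bs_map_repr`), apply `trP_inv` to each of them. The last statement: both sides are ring
homomorphisms in `z`, `Bs.hom_ext`, `trP_comp` -/
theorem th_exists (p : ℕ) [Fact p.Prime] [CharP F p] (C' : Cov k R H) (s m : ℕ) (hs : 0 < s)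
    (hm : 0 < m) (hF : Nat.card F = (p ^ s) ^ m) (β : F) (hβ : β ≠ 0) :
    ∃ Θ : Fam k F (gb F (p ^ s) β) R →+* Fam k F (gq F) R, Function.Injective Θ ∧
      (∀ r, Θ (Bs.inR (evg k F (gb F (p ^ s) β)) R r) = Bs.inR (evg k F (gq F)) R r) ∧
      (∀ f : F[X], Θ (algebraMap F[X] (Fam k F (gb F (p ^ s) β) R) f) =
        algebraMap F[X] (Fam k F (gq F) R) (f.comp (C β⁻¹ * trP (p ^ s) m (-β ^ 2)))) ∧
      (∀ h z, Θ (Bs.act (evg k F (gb F (p ^ s) β)) C'.act h z) =
        Bs.act (evg k F (gq F)) C'.act h (Θ z)) ∧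
      (∀ z, (∀ c : F, (trP (p ^ s) m (-β ^ 2)).eval c = 0 → tau k R c z = z) →
        ∃ z', Θ z' = z) ∧
      ∀ (c a : F) (sh : Fam k F (gb F (p ^ s) β) R →+* Fam k F (gb F (p ^ s) β) R),
        IsShf (gb F (p ^ s) β) β a sh → (trP (p ^ s) m (-β ^ 2)).eval c = a →
        ∀ z, tau k R c (Θ z) = Θ (sh z) := by
  have hb : (-β ^ 2 : F) ≠ 0 := neg_ne_zero.mpr (pow_ne_zero 2 hβ)
  have hβi : β⁻¹ ≠ 0 := inv_ne_zero hβ
  have hP : 0 < p ^ s := pow_pos (Fact.out : p.Prime).pos s
  let g : F[X] := C β⁻¹ * trP (p ^ s) m (-β ^ 2)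
  have hg : ∀ f : k[X], compRingHom g (evg k F (gb F (p ^ s) β) f) = evg k F (gq F) f := by
    intro f
    rw [coe_compRingHom_apply, evg_comp, tr_gb p s m hm hF β hβ]
  have hdeg : g.natDegree = (p ^ s) ^ (m - 1) := by
    rw [natDegree_C_mul hβi, trP_natDegree p s m hs hm _ hb]
  have hinj : Function.Injective (compRingHom g) := by
    rw [injective_iff_map_eq_zero]
    intro f hf
    rw [coe_compRingHom_apply, comp_eq_zero_iff] at hf
    rcases hf with hf | ⟨-, hf⟩
    · exact hf
    · exfalso
      have h1 : g.natDegree = 0 := by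
        rw [hf, natDegree_C]
      rw [hdeg] at h1
      exact absurd h1 (pow_pos hP _).ne'
  let Θ : Fam k F (gb F (p ^ s) β) R →+* Fam k F (gq F) R :=
    Bs.map (evg k F (gb F (p ^ s) β)) (compRingHom g) (evg k F (gq F)) hg
  have hΘr : ∀ r, Θ (Bs.inR (evg k F (gb F (p ^ s) β)) R r) = Bs.inR (evg k F (gq F)) R r :=
    fun r => Bs.map_inR _ _ _ _ r
  have hΘa : ∀ f : F[X], Θ (algebraMap F[X] (Fam k F (gb F (p ^ s) β) R) f) =
      algebraMap F[X] (Fam k F (gq F) R) (f.comp g) := fun f => Bs.map_alg _ _ _ _ f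
  refine ⟨Θ, bs_map_inj C' _ _ _ _ hinj, hΘr, hΘa, bs_map_act C' _ _ _ _, ?_, ?_⟩
  · intro z hz
    obtain ⟨b⟩ := cov_basis C'
    have h1 : ∀ i, ∃ f' : F[X], f'.comp g = (Bs.basis (evg k F (gq F)) b).repr z i := by
      intro i
      refine trP_inv p s m hs hm hF _ hb β⁻¹ hβi _ fun c hc => ?_
      have h2 := bs_map_repr (evg k F (gq F)) (compRingHom (X + C c)) (evg k F (gq F))
        (fun f => by rw [coe_compRingHom_apply, evg_comp, gq_comp]) b z i
      have h3 : Bs.map (evg k F (gq F)) (compRingHom (X + C c)) (evg k F (gq F))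
          (fun f => by rw [coe_compRingHom_apply, evg_comp, gq_comp]) z = z := hz c hc
      rw [h3, coe_compRingHom_apply] at h2
      exact h2.symm
    choose f' hf' using h1
    refine ⟨∑ i, f' i • Bs.basis (evg k F (gb F (p ^ s) β)) b i, ?_⟩
    rw [map_sum]
    conv_rhs => rw [← (Bs.basis (evg k F (gq F)) b).sum_repr z]
    refine Finset.sum_congr rfl fun i _ => ?_
    rw [Algebra.smul_def, map_mul, hΘa, Bs.basis_apply, hΘr, hf', Algebra.smul_def, Bs.basis_apply]
  · intro c a sh hsh hca z
    have e : (tau k R c).comp Θ = Θ.comp sh := by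
      apply Bs.hom_ext
      · intro f
        rw [RingHom.comp_apply, RingHom.comp_apply, hΘa, hsh.2, hΘa, tau_alg, comp_assoc,
          comp_assoc]
        congr 1
        congr 1
        rw [add_comp, X_comp, C_comp, mul_comp, C_comp, trP_comp, hca, mul_add, ← C_mul, div_eq_inv_mul]
      · intro r
        rw [RingHom.comp_apply, RingHom.comp_apply, hΘr, tau_inR, hsh.1, hΘr]
    exact RingHom.congr_fun e z

end Pool.Agent.AB3
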