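import Pool.Agent.Lib.MP_5de024_nt.S.AsX.Gal
import Pool.Agent.Lib.MP_5de024_nt.S.AsX.Th

/-!
# Extension to the fraction field (part AS of project AB3, piece Fld)
-/

set_option autoImplicit false
set_option linter.unusedSectionVars false

namespace Pool.Agent.AB3

open Pool.Agent.AB Polynomial

/-- injective endomorphisms of the ring of integers extend to the field -/
theorem ext_fld (p : ℕ) [Fact p.Prime] (M : Type) [Field M] [Algebra (Fx p) M]
    [Algebra (Rx p) M] [IsScalarTower (Rx p) (Fx p) M] (hM : NiK p M)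
    (f : Oc p M →+* Oc p M) (hf : Function.Injective f) :
    ∃ f' : M →+* M, ∀ z : Oc p M, f' (z : M) = ((f z : Oc p M) : M) := by
  have hfd : FiniteDimensional (Fx p) M := hM.1
  have hfr : IsFractionRing (Oc p M) M :=
    integralClosure.isFractionRing_of_finite_extension (Fx p) M
  have hinj : Function.Injective ((algebraMap (Oc p M) M).comp f) :=
    (IsFractionRing.injective (Oc p M) M).comp hf
  refine ⟨IsFractionRing.lift hinj, fun z => ?_⟩
  exact IsFractionRing.lift_algebraMap hinj z

/-- an element with an integral power is integral -/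
theorem oc_root (p : ℕ) [Fact p.Prime] (M : Type) [Field M] [Algebra (Fx p) M]
    [Algebra (Rx p) M] [IsScalarTower (Rx p) (Fx p) M] (w : M) (n : ℕ) (hn : 0 < n)
    (h : ∃ z : Oc p M, (z : M) = w ^ n) : ∃ z : Oc p M, (z : M) = w := by
  obtain ⟨z, hz⟩ := h
  have h1 : IsIntegral (Rx p) (w ^ n) := hz ▸ z.2
  exact ⟨⟨w, IsIntegral.of_pow hn h1⟩, rfl⟩

/-- the translations and the Galois group -/
theorem tau_ac (p : ℕ) [Fact p.Prime] (M : Type) [Field M] [Algebra (Fx p) M]
    [Algebra (Rx p) M] [IsScalarTower (Rx p) (Fx p) M] (k R H F : Type) [Field k] [CommRing R]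
    [Algebra k[X] R] [Group H] [Field F] [Finite F] [Algebra k F]
    (m' : Mdl p M F (Fam k F (gq F) R) H)
    (hst : ∀ γ r, ∃ r' : R, m'.ac γ (Bs.inR (evg k F (gq F)) R r) =
      Bs.inR (evg k F (gq F)) R r') (φ : Gl p M → (F ≃+* F))
    (hφ : ∀ γ a, m'.ac γ (algebraMap F[X] (Fam k F (gq F) R) (C a)) =
      algebraMap F[X] (Fam k F (gq F) R) (C (φ γ a))) (γ : Gl p M) (c : F)
    (z : Fam k F (gq F) R) :
    tau k R (φ γ c) (m'.ac γ z) = m'.ac γ (tau k R c z) := by
  let A : Fam k F (gq F) R →+* Fam k F (gq F) R := (m'.ac γ : _ →+* _)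
  have hA : ∀ z, A z = m'.ac γ z := fun z => rfl
  have key : (tau k R (φ γ c)).comp A = A.comp (tau k R c) := by
    apply Bs.hom_ext
    · intro f
      have h1 : ((tau k R (φ γ c)).comp A).comp (algebraMap F[X] (Fam k F (gq F) R)) =
          (A.comp (tau k R c)).comp (algebraMap F[X] (Fam k F (gq F) R)) := by
        apply Polynomial.ringHom_ext
        · intro a
          simp only [RingHom.comp_apply]
          rw [hA, hφ, tau_alg, tau_alg, hA, Polynomial.C_comp, Polynomial.C_comp, hφ]
        · simp only [RingHom.comp_apply]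
          rw [hA, m'.ac_X, tau_alg, tau_alg, hA, Polynomial.X_comp, Polynomial.X_comp, map_add,
            map_add, map_add, m'.ac_X, hφ]
      exact congrArg (fun q : F[X] →+* Fam k F (gq F) R => q f) h1
    · intro r
      obtain ⟨r', hr'⟩ := hst γ r
      simp only [RingHom.comp_apply]
      rw [hA, hr', tau_inR, tau_inR, hA, hr']
  exact congrArg (fun q : Fam k F (gq F) R →+* Fam k F (gq F) R => q z) key

end Pool.Agent.AB3
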