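import Pool.Agent.Lib.MP_5de024_nt.Gs
import Pool.Agent.Lib.MP_5de024_nt.Rt
import Pool.Agent.Lib.MP_5de024_nt.S.GeoM

/-!
# The Galois group acts on the model (part AS of project AB3, piece Gal)
-/

set_option autoImplicit false
set_option linter.unusedSectionVars false

namespace Pool.Agent.AB3

open Pool.Agent.AB Polynomial

section mdl

variable {p : ℕ} [Fact p.Prime] {M F B H : Type} [Field M] [Algebra (Fx p) M]
  [Algebra (Rx p) M] [IsScalarTower (Rx p) (Fx p) M] [Field F] [CommRing B] [Algebra F[X] B]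
  [Group H]

/-- the Galois group acts on the model -/
noncomputable def Mdl.ac (m : Mdl p M F B H) : Gl p M →* (B ≃+* B) where
  toFun γ := (m.e.trans ((act p M γ : Oc p M ≃ₐ[Rx p] Oc p M) : Oc p M ≃+* Oc p M)).trans
    m.e.symm
  map_one' := by
    ext z
    exact m.e.symm_apply_apply z
  map_mul' γ δ := by
    ext z
    change m.e.symm (act p M (γ * δ) (m.e z)) =
      m.e.symm (act p M γ (m.e (m.e.symm (act p M δ (m.e z)))))
    rw [m.e.apply_symm_apply, act_mul]

theorem Mdl.ac_e (m : Mdl p M F B H) (γ : Gl p M) (z : B) :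
    m.e (m.ac γ z) = act p M γ (m.e z) :=
  m.e.apply_symm_apply _

theorem Mdl.ac_X (m : Mdl p M F B H) (γ : Gl p M) :
    m.ac γ (algebraMap F[X] B X) = algebraMap F[X] B X := by
  apply m.e.injective
  rw [m.ac_e, m.eX, act_xo]

theorem Mdl.ac_j (m : Mdl p M F B H) (h : H) (z : B) :
    m.ac (m.j h : Gl p M) z = m.cov.act h z := by
  apply m.e.injective
  rw [m.ac_e, m.eact]

/-- the action on the constants (`m.econst`, `IsCst.map`; `B` is nontrivial and the map
`a ↦ algebraMap (C a)` is injective) -/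
theorem Mdl.exists_phi (m : Mdl p M F B H) : ∃ φ : Gl p M →* (F ≃+* F),
    (∀ γ a, m.ac γ (algebraMap F[X] B (C a)) = algebraMap F[X] B (C (φ γ a))) ∧
    ∀ γ, γ ∈ Gc p M ↔ φ γ = 1 := by
  classical
  have hinj : ∀ a b : F, algebraMap F[X] B (C a) = algebraMap F[X] B (C b) → a = b :=
    fun a b h => C_injective (m.cov.inj h)
  have hcst : ∀ a : F, IsCst p ((m.e (algebraMap F[X] B (C a)) : Oc p M) : M) :=
    fun a => (m.econst _).2 ⟨a, rfl⟩
  have hex : ∀ (γ : Gl p M) (a : F), ∃ b : F,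
      m.ac γ (algebraMap F[X] B (C a)) = algebraMap F[X] B (C b) := by
    intro γ a
    obtain ⟨b, hb⟩ := (m.econst _).1 ((hcst a).map (γ : M →+* M))
    refine ⟨b, m.e.injective (Subtype.ext ?_)⟩
    rw [m.ac_e, act_coe, hb]
    rfl
  choose f hf using hex
  have hmul : ∀ γ δ a, f (γ * δ) a = f γ (f δ a) := by
    intro γ δ a
    apply hinj
    rw [← hf, ← hf, ← hf, map_mul]
    rfl
  have hone : ∀ a, f 1 a = a := by
    intro a
    apply hinj
    rw [← hf, map_one]
    rfl
  let φ0 : Gl p M → (F ≃+* F) := fun γ =>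
    { toFun := f γ
      invFun := f γ⁻¹
      left_inv := fun a => by rw [← hmul, inv_mul_cancel, hone]
      right_inv := fun a => by rw [← hmul, mul_inv_cancel, hone]
      map_mul' := fun a b => by
        apply hinj
        rw [← hf, C_mul, map_mul, map_mul, hf, hf, C_mul, map_mul]
      map_add' := fun a b => by
        apply hinj
        rw [← hf, C_add, map_add, map_add, hf, hf, C_add, map_add] }
  have hφ0 : ∀ γ a, φ0 γ a = f γ a := fun γ a => rfl
  refine ⟨{ toFun := φ0
            map_one' := RingEquiv.ext fun a => hone a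
            map_mul' := fun γ δ => RingEquiv.ext fun a => hmul γ δ a }, hf, ?_⟩
  intro γ
  constructor
  · intro hγ
    refine RingEquiv.ext fun a => ?_
    apply hinj
    change algebraMap F[X] B (C (f γ a)) = algebraMap F[X] B (C a)
    rw [← hf]
    apply m.e.injective
    apply Subtype.ext
    rw [m.ac_e, act_coe]
    exact hγ _ (hcst a)
  · intro hγ c hc
    obtain ⟨a, ha⟩ := (m.econst c).1 hc
    have h1 : f γ a = a := RingEquiv.congr_fun hγ a
    have h2 : m.ac γ (algebraMap F[X] B (C a)) = algebraMap F[X] B (C a) := by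
      rw [hf, h1]
    have h3 := congrArg (fun z => ((m.e z : Oc p M) : M)) h2
    simp only [m.ac_e, act_coe] at h3
    rw [← ha]
    exact h3

end mdl

/-- The image of `R` in the base change is stable under the Galois group of `M`. For `y ∈ Oc p K` put
`Q = ∏_{σ ∈ Gl p K} (Y - σ y)`; its coefficients are fixed, so they come from `F_p[x]` (`fixed_oc`).
Let `ι = Bs.inR ∘ m.e.symm : Oc p K → B`; `ι` of an element of `F_p[x]` is the image of a polynomial
in `g` with coefficients in `F_p`, hence fixed by `m'.ac γ` (two ring homomorphisms from `(ZMod p)[X]`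
which agree at `X`: `g` has coefficients in the prime field, so `algebraMap g` is fixed because `X` is).
Therefore `m'.ac γ (ι y)` is a root of `∏ (Y - ι (σ y))`, and `B` is a domain (`B ≃ Oc p M`). -/
theorem gal_stab (p : ℕ) [Fact p.Prime] (K M : Type) [Field K] [Algebra (Fx p) K]
    [Algebra (Rx p) K] [IsScalarTower (Rx p) (Fx p) K] (hK : NiK p K) [Field M]
    [Algebra (Fx p) M] [Algebra (Rx p) M] [IsScalarTower (Rx p) (Fx p) M] (k R H : Type)
    [Field k] [CharP k p] [CommRing R] [Algebra k[X] R] [Group H] [Finite H]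
    (m : Mdl p K k R H) (F : Type) [Field F] [Algebra k F] (g : F[X])
    (hg : ∀ i, (g.coeff i) ^ p = g.coeff i) (m' : Mdl p M F (Fam k F g R) H) (γ : Gl p M)
    (r : R) : ∃ r' : R, m'.ac γ (Bs.inR (evg k F g) R r) = Bs.inR (evg k F g) R r' := by
  classical
  have hfd : FiniteDimensional (Fx p) K := hK.1
  have hgal : IsGalois (Fx p) K := hK.2.1
  have hdom : IsDomain (Fam k F g R) := m'.e.toMulEquiv.isDomain
  -- the polynomial `g` comes from the prime field
  have hchF : CharP F p := charP_of_injective_algebraMap (algebraMap k F).injective p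
  obtain ⟨cf, hcf⟩ : ∃ cf : ZMod p →+* F, ∀ c : F, c ^ p = c → c ∈ Set.range cf := by
    let _ : Algebra (Rx p) F :=
      RingHom.toAlgebra (eval₂RingHom (ZMod.castHom (dvd_refl p) F) (0 : F))
    refine ⟨cst p F, fun c hc => ?_⟩
    obtain ⟨i, hi⟩ := cst_of_pow p F c hc
    exact ⟨i, hi.symm⟩
  obtain ⟨g0, hg0⟩ : ∃ g0 : Rx p, g0.map cf = g := by
    have h1 : g ∈ lifts cf := (lifts_iff_coeff_lifts g).2 fun i => hcf _ (hg i)
    obtain ⟨g0, h2⟩ := h1
    exact ⟨g0, h2⟩
  have hgfix : m'.ac γ (algebraMap F[X] (Fam k F g R) g) = algebraMap F[X] (Fam k F g R) g := by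
    let ψ : Rx p →+* Fam k F g R := (algebraMap F[X] (Fam k F g R)).comp (mapRingHom cf)
    have h1 : ((m'.ac γ : Fam k F g R →+* Fam k F g R)).comp ψ = ψ := by
      refine Polynomial.ringHom_ext' (RingHom.ext_zmod _ _) ?_
      change m'.ac γ (algebraMap F[X] (Fam k F g R) (X.map cf)) =
        algebraMap F[X] (Fam k F g R) (X.map cf)
      rw [map_X, m'.ac_X]
    have h2 := RingHom.congr_fun h1 g0
    change m'.ac γ (algebraMap F[X] (Fam k F g R) (g0.map cf)) =
      algebraMap F[X] (Fam k F g R) (g0.map cf) at h2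
    rw [hg0] at h2
    exact h2
  -- the map `ι`
  obtain ⟨io, hio⟩ : ∃ io : Oc p K →+* Fam k F g R,
      ∀ z, io z = Bs.inR (evg k F g) R (m.e.symm z) :=
    ⟨(Bs.inR (evg k F g) R).comp (m.e.symm : Oc p K →+* R), fun z => rfl⟩
  have hfix0 : ((m'.ac γ : Fam k F g R →+* Fam k F g R)).comp
      (io.comp (algebraMap (Rx p) (Oc p K))) = io.comp (algebraMap (Rx p) (Oc p K)) := by
    refine Polynomial.ringHom_ext' (RingHom.ext_zmod _ _) ?_
    have h1 : io (algebraMap (Rx p) (Oc p K) X) = algebraMap F[X] (Fam k F g R) g := by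
      have h2 : algebraMap (Rx p) (Oc p K) X = m.e (algebraMap k[X] R X) := m.eX.symm
      rw [h2, hio, m.e.symm_apply_apply, Bs.inR_alg]
      congr 1
      exact eval₂_X _ _
    change m'.ac γ (io (algebraMap (Rx p) (Oc p K) X)) = io (algebraMap (Rx p) (Oc p K) X)
    rw [h1, hgfix]
  -- the characteristic polynomial
  obtain ⟨y, hy⟩ : ∃ y, y = m.e r := ⟨_, rfl⟩
  obtain ⟨Q, hQ⟩ : ∃ Q : Polynomial (Oc p K), Q = ∏ σ : Gl p K, (X - C (act p K σ y)) :=
    ⟨_, rfl⟩
  have hQfix : ∀ τ : Gl p K,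
      Q.map ((act p K τ : Oc p K ≃ₐ[Rx p] Oc p K) : Oc p K →+* Oc p K) = Q := by
    intro τ
    rw [hQ, Polynomial.map_prod]
    refine Fintype.prod_equiv (Equiv.mulLeft τ) _ _ fun σ => ?_
    rw [Polynomial.map_sub, map_X, map_C, Equiv.coe_mulLeft, act_mul]
    rfl
  obtain ⟨Q0, hQ0⟩ : ∃ Q0 : Polynomial (Rx p), Q0.map (algebraMap (Rx p) (Oc p K)) = Q := by
    have h1 : Q ∈ lifts (algebraMap (Rx p) (Oc p K)) := by
      refine (lifts_iff_coeff_lifts Q).2 fun i => ?_
      obtain ⟨s, hs⟩ := fixed_oc p K (Q.coeff i) (fun τ => by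
        have h2 := congrArg (fun q => q.coeff i) (hQfix τ)
        simp only [coeff_map] at h2
        exact h2)
      exact ⟨s, hs.symm⟩
    obtain ⟨Q0, h2⟩ := h1
    exact ⟨Q0, h2⟩
  have hroot : Q.eval y = 0 := by
    rw [hQ, eval_prod]
    refine Finset.prod_eq_zero (Finset.mem_univ (1 : Gl p K)) ?_
    rw [eval_sub, eval_X, eval_C, act_one, sub_self]
  have hz1 : Q.eval₂ io (m'.ac γ (io y)) = 0 := by
    have h1 : Q.eval₂ io (m'.ac γ (io y)) =
        Q0.eval₂ (io.comp (algebraMap (Rx p) (Oc p K))) (m'.ac γ (io y)) := by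
      rw [← hQ0, eval₂_map]
    have h2 : (m'.ac γ : Fam k F g R →+* Fam k F g R)
        (Q0.eval₂ (io.comp (algebraMap (Rx p) (Oc p K))) (io y)) =
        Q0.eval₂ (io.comp (algebraMap (Rx p) (Oc p K))) (m'.ac γ (io y)) := by
      rw [hom_eval₂, hfix0]
      rfl
    have h3 : Q0.eval₂ (io.comp (algebraMap (Rx p) (Oc p K))) (io y) = io (Q.eval y) := by
      rw [← hQ0, eval_map, hom_eval₂]
    rw [h1, ← h2, h3, hroot, map_zero, map_zero]
  have hz2 : Q.eval₂ io (m'.ac γ (io y)) =
      ∏ σ : Gl p K, (m'.ac γ (io y) - io (act p K σ y)) := by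
    rw [hQ, eval₂_finsetProd]
    exact Finset.prod_congr rfl fun σ _ => by rw [eval₂_sub, eval₂_X, eval₂_C]
  rw [hz2, Finset.prod_eq_zero_iff] at hz1
  obtain ⟨σ, -, hσ⟩ := hz1
  refine ⟨m.e.symm (act p K σ y), ?_⟩
  have h4 := sub_eq_zero.1 hσ
  rw [hio, hio, hy, m.e.symm_apply_apply, ← hy] at h4
  exact h4

end Pool.Agent.AB3
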