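import Pool.Agent.Lib.MP_5de024_nt.S.AsX.Fld
import Pool.Agent.Lib.MP_5de024_nt.S.AsX.Down
import Pool.Agent.Lib.MP_5de024_nt.S.AsX.Comb

/-!
# Independence (part AS of project AB3, piece Ind)
-/

set_option autoImplicit false
set_option linter.unusedSectionVars false

namespace Pool.Agent.AB3

open Pool.Agent.AB Polynomial

/-- the elements fixed by the `P`-th power -/
private def ind_FP (p s : ℕ) [Fact p.Prime] (k : Type) [Field k] [CharP k p] : AddSubgroup k where
  carrier := {a | a ^ p ^ s = a}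
  zero_mem' := by
    change (0 : k) ^ p ^ s = 0
    exact zero_pow (pow_ne_zero _ (Fact.out : p.Prime).ne_zero)
  add_mem' := by
    intro a b ha hb
    change (a + b) ^ p ^ s = a + b
    rw [add_pow_char_pow, show a ^ p ^ s = a from ha, show b ^ p ^ s = b from hb]
  neg_mem' := by
    intro a ha
    change (-a) ^ p ^ s = -a
    have h := sub_pow_char_pow (p := p) (n := s) (0 : k) a
    rw [zero_sub, zero_pow (pow_ne_zero _ (Fact.out : p.Prime).ne_zero), zero_sub,
      show a ^ p ^ s = a from ha] at h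
    exact h

/-- the constants form a subfield -/
private def ind_cs (p : ℕ) [Fact p.Prime] (K : Type) [Field K] [CharP K p] : Subfield K where
  carrier := {c | IsCst p c}
  mul_mem' := IsCst.mul
  one_mem' := IsCst.one
  add_mem' := IsCst.add
  zero_mem' := IsCst.zero
  neg_mem' := IsCst.neg
  inv_mem' := fun _ h => h.inv

private theorem ind_map {F : Type} [Field F] (P m : ℕ) (b : F) (f : F ≃+* F) (c : F) :
    f ((trP P m b).eval c) = (trP P m (f b)).eval (f c) := by
  rw [trP_eval, trP_eval, map_sum]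
  exact Finset.sum_congr rfl fun i _ => by rw [map_pow, map_mul]

private theorem ind_sep {F : Type} [Field F] [Finite F] (p : ℕ) [Fact p.Prime] [CharP F p]
    (s m : ℕ) (hs : 0 < s) (hm : 0 < m) (hF : Nat.card F = (p ^ s) ^ m) (β : F) (hβ : β ≠ 0)
    (hgen : ∀ j : ℕ, (β ^ (2 * (p ^ s - 1))) ^ p ^ j = β ^ (2 * (p ^ s - 1)) →
      ∀ z : F, z ^ p ^ j = z) (f φ0 : F ≃+* F) (hne : f ≠ φ0) :
    ∃ c : F, (trP (p ^ s) m (-β ^ 2)).eval (f.symm c) = 0 ∧
      (trP (p ^ s) m (-β ^ 2)).eval (φ0.symm c) = 1 := by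
  have hb : (-β ^ 2 : F) ≠ 0 := neg_ne_zero.2 (pow_ne_zero _ hβ)
  have hpow : (-β ^ 2 : F) ^ (p ^ s - 1) = β ^ (2 * (p ^ s - 1)) := by
    rw [neg_pow, ← pow_mul]
    have h1 : (-1 : F) ^ (p ^ s - 1) = 1 := by
      rcases (Fact.out : p.Prime).eq_two_or_odd' with h2 | h2
      · subst h2
        have : (-1 : F) = 1 := CharTwo.neg_eq 1
        rw [this, one_pow]
      · have h3 : Odd (p ^ s) := h2.pow
        have h4 : Even (p ^ s - 1) := by
          obtain ⟨t, ht⟩ := h3
          exact ⟨t, by omega⟩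
        exact h4.neg_one_pow
    rw [h1, one_mul]
  have hsep : (f (-β ^ 2)) ^ (p ^ s - 1) ≠ (φ0 (-β ^ 2)) ^ (p ^ s - 1) := by
    intro h
    rw [← map_pow, ← map_pow, hpow] at h
    apply hne
    have h1 := aut_id p (f.trans φ0.symm) (β ^ (2 * (p ^ s - 1))) hgen (by
      change φ0.symm (f _) = _
      rw [h, φ0.symm_apply_apply])
    ext z
    have h2 := h1 z
    change φ0.symm (f z) = z at h2
    rw [← h2, φ0.apply_symm_apply, h2]
  obtain ⟨c, h1, h2⟩ := trP_sep p s m hs hm hF _ _ ((map_ne_zero f).2 hb)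
    ((map_ne_zero φ0).2 hb) hsep
  refine ⟨c, ?_, ?_⟩
  · apply f.injective
    rw [ind_map, f.apply_symm_apply, h1, map_zero]
  · apply φ0.injective
    rw [ind_map, φ0.apply_symm_apply, h2, map_one]

private theorem ind_zpow {L ι : Type} [Field L] (x : L) (hx : x ≠ 0) (s : Finset ι)
    (f : ι → ℤ) : x ^ (∑ j ∈ s, f j) = ∏ j ∈ s, x ^ f j := by
  classical
  induction s using Finset.induction_on with
  | empty => rw [Finset.sum_empty, Finset.prod_empty, zpow_zero]
  | insert a s ha ih => rw [Finset.sum_insert ha, Finset.prod_insert ha, zpow_add₀ hx, ih]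

/-- the congruence from the vanishing of the differences -/
private theorem ind_end {A : Type} [AddCommGroup A] (p n : ℕ) (hp : p.Prime)
    (hn : n.Coprime p) (t : A) (ht : p • t = 0) (f g : A → ℤ) (l : ℕ)
    (h : ∀ a, (n : ℤ) ∣ ((dif t)^[l] f) a - ((dif t)^[l] g) a) (a : A) (hf : f (a + t) = 0)
    (hg : g (a + t) = 0) : (n : ℤ) ∣ f a - g a := by
  have h1 := dif_iter p n hp hn t ht (fun a => f a - g a) l (fun b => by
    rw [dif_iter_sub]
    exact h b) (a + t)
  change (n : ℤ) ∣ (f (a + t - t) - g (a + t - t)) - (f (a + t) - g (a + t)) at h1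
  rw [add_sub_cancel_right, hf, hg, sub_self, sub_zero] at h1
  exact h1

theorem as_ind (p : ℕ) [Fact p.Prime] (M : Type) [Field M] [Algebra (Fx p) M]
    [Algebra (Rx p) M] [IsScalarTower (Rx p) (Fx p) M] (hM : NiK p M) {k R H : Type} [Field k]
    [CharP k p] [CommRing R] [Algebra k[X] R] [Group H] [Finite H] {F : Type} [Field F]
    [Finite F] [Algebra k F] [CharP F p] (C' : Cov k R H) (s m : ℕ) (hs : 0 < s) (hm : 0 < m)
    (hF : Nat.card F = (p ^ s) ^ m) (hr : Nat.card {a : k // a ^ p ^ s = a} = p ^ s)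
    (β : F) (hβ : β ≠ 0)
    (hgen : ∀ j : ℕ, (β ^ (2 * (p ^ s - 1))) ^ p ^ j = β ^ (2 * (p ^ s - 1)) →
      ∀ z : F, z ^ p ^ j = z) (n : ℕ) (hn : n.Coprime p) (hn0 : 0 < n)
    (m' : Mdl p M F (Fam k F (gq F) R) H)
    (hact : ∀ h z, m'.cov.act h z = Bs.act (evg k F (gq F)) C'.act h z)
    (hst : ∀ γ r, ∃ r' : R, m'.ac γ (Bs.inR (evg k F (gq F)) R r) =
      Bs.inR (evg k F (gq F)) R r')
    (Θ : Fam k F (gb F (p ^ s) β) R →+* Fam k F (gq F) R) (hinj : Function.Injective Θ)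
    (halg : ∀ f : F[X], Θ (algebraMap F[X] (Fam k F (gb F (p ^ s) β) R) f) =
        algebraMap F[X] (Fam k F (gq F) R) (f.comp (C β⁻¹ * trP (p ^ s) m (-β ^ 2))))
    (hΘ : ∀ h z, Θ (Bs.act (evg k F (gb F (p ^ s) β)) C'.act h z) =
        Bs.act (evg k F (gq F)) C'.act h (Θ z))
    (hfix : ∀ z, (∀ c : F, (trP (p ^ s) m (-β ^ 2)).eval c = 0 → tau k R c z = z) →
        ∃ z', Θ z' = z)
    (htau : ∀ (c a : F) (sh : Fam k F (gb F (p ^ s) β) R →+* Fam k F (gb F (p ^ s) β) R),
        IsShf (gb F (p ^ s) β) β a sh → (trP (p ^ s) m (-β ^ 2)).eval c = a →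
        ∀ z, tau k R c (Θ z) = Θ (sh z))
    (u : Fam k F (gb F (p ^ s) β) R) (hu : u ≠ 0)
    (sh : {a : k // a ^ p ^ s = a} → (Fam k F (gb F (p ^ s) β) R →+* Fam k F (gb F (p ^ s) β) R))
    (hsh : ∀ a : {a : k // a ^ p ^ s = a},
      IsShf (gb F (p ^ s) β) β (algebraMap k F (a : k)) (sh a))
    (hgood : ∀ (E : H → {a : k // a ^ p ^ s = a} → ℕ) (c : F)
      (w : Fam k F (gb F (p ^ s) β) R), c ≠ 0 →
        (∏ᶠ h : H, ∏ᶠ a, (Bs.act (evg k F (gb F (p ^ s) β)) C'.act h (sh a u)) ^ E h a) =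
          algebraMap F[X] (Fam k F (gb F (p ^ s) β) R) (Polynomial.C c) * w ^ n →
        ∀ a h h', E h a ≡ E h' a [MOD n]) {ι : Type} [Finite ι]
    (aa : ι → {a : k // a ^ p ^ s = a}) (haa : Function.Injective aa)
    (haa1 : ∀ i j, (aa j : k) ≠ (aa i : k) + 1) (e : Gl p M → ι → ℕ) (c w : M)
    (hc : IsCst p c) (hc0 : c ≠ 0)
    (hrel : (∏ᶠ γ : Gl p M, ∏ᶠ j, (γ ((m'.e (Θ (sh (aa j) u)) : Oc p M) : M)) ^ e γ j) =
      c * w ^ n) (γ h : Gl p M) (hh : h ∈ Gc p M) (j : ι) :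
    e (h * γ) j ≡ e γ j [MOD n] := by
  classical
  have hfd : FiniteDimensional (Fx p) M := hM.1
  have hgal : IsGalois (Fx p) M := hM.2.1
  have hCh : CharP M p := charP_of p M
  let _ : Fintype ι := Fintype.ofFinite ι
  let _ : Fintype H := Fintype.ofFinite H
  let _ : Fintype (Gl p M) := Fintype.ofFinite (Gl p M)
  have hp : 1 < p := (Fact.out : p.Prime).one_lt
  have hFinA : Finite {a : k // a ^ p ^ s = a} := by
    apply Nat.finite_of_card_ne_zero
    rw [hr]
    exact pow_ne_zero _ (by omega)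
  let FP := ind_FP p s k
  let q : FP ≃ {a : k // a ^ p ^ s = a} := Equiv.subtypeEquivRight (fun _ => Iff.rfl)
  have hq : ∀ a : FP, ((q a : {a : k // a ^ p ^ s = a}) : k) = (a : k) := fun a => rfl
  have hFinP : Finite FP := Finite.of_equiv _ q.symm
  let _ : Fintype FP := Fintype.ofFinite FP
  let _ : Fintype {a : k // a ^ p ^ s = a} := Fintype.ofFinite _
  obtain ⟨φ, hφ, hφG⟩ := m'.exists_phi
  -- the shifts compose
  have hshsh : ∀ a b : FP, ∀ z, sh (q a) (sh (q b) z) = sh (q (b + a)) z := by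
    intro a b z
    have h1 : (sh (q a)).comp (sh (q b)) = sh (q (b + a)) := by
      apply Bs.hom_ext
      · intro f
        rw [RingHom.comp_apply, (hsh (q b)).2, (hsh (q a)).2, (hsh (q (b + a))).2]
        congr 1
        rw [comp_assoc]
        congr 1
        rw [hq, hq, hq, AddSubgroup.coe_add, map_add, add_div, C_add]
        simp only [add_comp, X_comp, C_comp]
        ring
      · intro r
        rw [RingHom.comp_apply, (hsh (q b)).1, (hsh (q a)).1, (hsh (q (b + a))).1]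
    exact congrArg (fun g : Fam k F (gb F (p ^ s) β) R →+* Fam k F (gb F (p ^ s) β) R => g z) h1
  have hsh0 : ∀ z, sh (q 0) z = z := by
    intro z
    have h1 : sh (q 0) = RingHom.id _ := by
      apply Bs.hom_ext
      · intro f
        rw [(hsh (q 0)).2, RingHom.id_apply, hq, AddSubgroup.coe_zero, map_zero, zero_div,
          C_0, add_zero, comp_X]
      · intro r
        rw [(hsh (q 0)).1, RingHom.id_apply]
    rw [h1, RingHom.id_apply]
  have hshinj : ∀ a : FP, Function.Injective (sh (q a)) := by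
    intro a z1 z2 hz
    have h1 := congrArg (sh (q (-a))) hz
    rw [hshsh, hshsh, add_neg_cancel, hsh0, hsh0] at h1
    exact h1
  -- the elements
  let U : FP → Fam k F (gq F) R := fun a => Θ (sh (q a) u)
  have hU0 : ∀ a, U a ≠ 0 := by
    intro a h0
    have h1 : sh (q a) u = 0 := hinj (by rw [map_zero]; exact h0)
    exact hu (hshinj a (by rw [h1, map_zero]))
  let co : Fam k F (gq F) R → M := fun z => ((m'.e z : Oc p M) : M)
  have co_mul : ∀ x y, co (x * y) = co x * co y := by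
    intro x y
    change ((m'.e (x * y) : Oc p M) : M) = _
    rw [map_mul]
    rfl
  have co_inj : Function.Injective co := fun x y hxy =>
    m'.e.injective (Subtype.ext hxy)
  let coR : Fam k F (gq F) R →+* M :=
    ((Oc p M).val : Oc p M →+* M).comp (m'.e : Fam k F (gq F) R →+* Oc p M)
  have hcoR : ∀ z, coR z = co z := fun z => rfl
  have hcoγ : ∀ (γ : Gl p M) z, γ (co z) = co (m'.ac γ z) := by
    intro γ z
    change γ ((m'.e z : Oc p M) : M) = ((m'.e (m'.ac γ z) : Oc p M) : M)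
    rw [m'.ac_e, act_coe]
  let v : Gl p M → FP → M := fun γ a => γ (co (U a))
  have hv : ∀ γ a, v γ a ≠ 0 := by
    intro γ a h0
    have h1 : co (U a) = 0 := (map_eq_zero γ).1 h0
    have h2 : co (U a) = co 0 := by rw [h1, ← hcoR, map_zero]
    exact hU0 a (co_inj h2)
  -- the translations of `M`
  have hτex : ∀ c : F, ∃ f' : M →+* M, ∀ z, f' (co z) = co (tau k R c z) := by
    intro c
    obtain ⟨f', hf'⟩ := ext_fld p M hM
      (((m'.e : Fam k F (gq F) R →+* Oc p M).comp (tau k R c)).comp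
        (m'.e.symm : Oc p M →+* Fam k F (gq F) R)) (by
      intro x y hxy
      have h1 : tau k R c (m'.e.symm x) = tau k R c (m'.e.symm y) := m'.e.injective hxy
      have h2 := congrArg (tau k R (-c)) h1
      rw [tau_tau, tau_tau, neg_add_cancel, tau_zero, tau_zero] at h2
      exact m'.e.symm.injective h2)
    refine ⟨f', fun z => ?_⟩
    have h3 := hf' (m'.e z)
    rw [RingHom.comp_apply, RingHom.comp_apply] at h3
    have h4 : (m'.e.symm : Oc p M →+* Fam k F (gq F) R) (m'.e z) = z :=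
      m'.e.symm_apply_apply z
    rw [h4] at h3
    exact h3
  choose τ hτ using hτex
  -- the shift function
  have hsex : ∀ (γ : Gl p M) (c : F), ∃ a : FP, algebraMap k F (a : k) =
      (trP (p ^ s) m (-β ^ 2)).eval ((φ γ).symm c) := by
    intro γ c
    obtain ⟨a, ha, ha'⟩ := tr_fix p s hs hr _ (trP_val p s m hm hF (-β ^ 2) ((φ γ).symm c))
    exact ⟨⟨a, ha⟩, ha'⟩
  choose S hS using hsex
  have hτv : ∀ c γ a, τ c (v γ a) = v γ (a + S γ c) := by
    intro c γ a
    change τ c (γ (co (U a))) = γ (co (U (a + S γ c)))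
    rw [hcoγ, hτ, hcoγ]
    congr 1
    have h1 := tau_ac p M k R H F m' hst φ hφ γ ((φ γ).symm c) (U a)
    rw [(φ γ).apply_symm_apply] at h1
    rw [h1]
    congr 1
    change tau k R ((φ γ).symm c) (Θ (sh (q a) u)) = Θ (sh (q (a + S γ c)) u)
    rw [htau ((φ γ).symm c) _ (sh (q (S γ c))) (hsh _) (hS γ c).symm, hshsh]
  -- `t = 1`
  let t : FP := ⟨1, one_pow _⟩
  have ht : p • t = 0 := by
    apply Subtype.ext
    change ((p • t : FP) : k) = 0
    rw [AddSubgroup.coe_nsmul]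
    change p • (1 : k) = 0
    rw [nsmul_one, CharP.cast_eq_zero]
  have hsep : ∀ f : F ≃+* F, f ≠ φ γ → ∃ c, ∀ γ' : Gl p M, (φ γ' = f → S γ' c = 0) ∧
      (φ γ' = φ γ → S γ' c = t) := by
    intro f hf
    obtain ⟨c, h1, h2⟩ := ind_sep p s m hs hm hF β hβ hgen f (φ γ) hf
    refine ⟨c, fun γ' => ⟨fun h3 => ?_, fun h3 => ?_⟩⟩
    · have h4 := hS γ' c
      rw [h3, h1] at h4
      exact Subtype.ext ((algebraMap k F).injective (by rw [h4]; exact (map_zero _).symm))
    · have h4 := hS γ' c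
      rw [h3, h2] at h4
      exact Subtype.ext ((algebraMap k F).injective (by rw [h4]; exact (map_one _).symm))
  -- the exponents
  let E : Gl p M → FP → ℤ := fun γ a => ∑ j, if q.symm (aa j) = a then (e γ j : ℤ) else 0
  have hEaa : ∀ γ j, E γ (q.symm (aa j)) = e γ j := by
    intro γ j
    change (∑ i, if q.symm (aa i) = q.symm (aa j) then (e γ i : ℤ) else 0) = e γ j
    rw [Finset.sum_eq_single j]
    · rw [if_pos rfl]
    · intro i _ hi
      rw [if_neg fun h0 => hi (haa (q.symm.injective h0))]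
    · intro h0
      exact absurd (Finset.mem_univ _) h0
  have hEt : ∀ γ j, E γ (q.symm (aa j) + t) = 0 := by
    intro γ j
    refine Finset.sum_eq_zero fun i _ => ?_
    rw [if_neg]
    intro h0
    apply haa1 j i
    have h1 := congrArg (fun a : FP => (a : k)) h0
    exact h1
  have hprodE : ∀ γ : Gl p M, ∏ a, v γ a ^ E γ a =
      ∏ j, (γ ((m'.e (Θ (sh (aa j) u)) : Oc p M) : M)) ^ e γ j := by
    intro γ
    have h1 : ∀ a, v γ a ^ E γ a = ∏ j, if q.symm (aa j) = a then v γ a ^ e γ j else 1 := by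
      intro a
      change v γ a ^ (∑ j, if q.symm (aa j) = a then (e γ j : ℤ) else 0) = _
      rw [ind_zpow _ (hv γ a)]
      refine Finset.prod_congr rfl fun j _ => ?_
      split_ifs
      · rw [zpow_natCast]
      · rw [zpow_zero]
    rw [Finset.prod_congr rfl fun a _ => h1 a, Finset.prod_comm]
    refine Finset.prod_congr rfl fun j _ => ?_
    rw [Finset.prod_ite_eq]
    simp only [Finset.mem_univ, if_true]
    rfl
  have hw0 : w ≠ 0 := by
    rintro rfl
    rw [zero_pow hn0.ne', mul_zero, finprod_eq_prod_of_fintype] at hrel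
    have h1 := Finset.prod_eq_zero_iff.1 hrel
    obtain ⟨γ', -, h2⟩ := h1
    rw [finprod_eq_prod_of_fintype, ← hprodE] at h2
    obtain ⟨a, -, h3⟩ := Finset.prod_eq_zero_iff.1 h2
    exact zpow_ne_zero _ (hv γ' a) h3
  have hRel : RelN (ind_cs p M) n v E := by
    refine ⟨c, w, hc, hc0, hw0, ?_⟩
    rw [← hrel]
    refine finprod_congr fun γ' => ?_
    rw [finprod_eq_prod_of_fintype, finprod_eq_prod_of_fintype, hprodE]
  have hFinΦ : Finite (F ≃+* F) :=
    Finite.of_injective (fun f : F ≃+* F => (f : F → F)) DFunLike.coe_injective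
  obtain ⟨l, E', ⟨c1, w1, hc1, hc10, hw10, hrel1⟩, hE0, hEl⟩ := as_comb (ind_cs p M) n v hv τ
    (fun c x hx => IsCst.map (τ c) hx) S hτv φ (φ γ) t hsep E hRel
  -- the support
  have hsupp : ∀ γ' : Gl p M, φ γ' = φ γ → ∃ h : H, γ * (m'.j h : Gl p M) = γ' := by
    intro γ' hγ'
    have h1 : γ⁻¹ * γ' ∈ Gc p M := by
      rw [hφG, map_mul, hγ', ← map_mul, inv_mul_cancel, map_one]
    refine ⟨m'.j.symm ⟨_, h1⟩, ?_⟩
    rw [m'.j.apply_symm_apply]
    change γ * (γ⁻¹ * γ') = γ'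
    rw [mul_inv_cancel_left]
  have hφj : ∀ h : H, φ (γ * (m'.j h : Gl p M)) = φ γ := by
    intro h
    rw [map_mul, (hφG _).1 (m'.j h).2, mul_one]
  have hginj : Function.Injective (fun h : H => γ * (m'.j h : Gl p M)) := by
    intro h1 h2 h12
    exact m'.j.injective (Subtype.ext (mul_left_cancel h12))
  have hx : ∀ (h : H) (a : FP), co (Bs.act (evg k F (gq F)) C'.act h (U a)) ≠ 0 := by
    intro h a h0
    have h2 : co (Bs.act (evg k F (gq F)) C'.act h (U a)) = co 0 := by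
      rw [h0, ← hcoR, map_zero]
    exact hU0 a ((Bs.act (evg k F (gq F)) C'.act h).injective (by
      rw [co_inj h2, map_zero]))
  have hrel2 : ∏ h : H, ∏ a, co (Bs.act (evg k F (gq F)) C'.act h (U a)) ^
      E' (γ * (m'.j h : Gl p M)) a = γ.symm c1 * (γ.symm w1) ^ n := by
    have h1 : ∏ γ', ∏ a, v γ' a ^ E' γ' a = c1 * w1 ^ n := by
      rw [← hrel1, finprod_eq_prod_of_fintype]
      exact Finset.prod_congr rfl fun γ' _ => (finprod_eq_prod_of_fintype _).symm
    have h2 : ∏ h : H, ∏ a, v (γ * (m'.j h : Gl p M)) a ^ E' (γ * (m'.j h : Gl p M)) a =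
        ∏ γ', ∏ a, v γ' a ^ E' γ' a := by
      refine Fintype.prod_of_injective (fun h : H => γ * (m'.j h : Gl p M)) hginj _ _ ?_
        (fun h => rfl)
      intro γ' hγ'
      refine Finset.prod_eq_one fun a _ => ?_
      rw [hE0 γ' (fun h3 => hγ' (hsupp γ' h3)), zpow_zero]
    have h3 := congrArg γ.symm (h2.trans h1)
    rw [map_mul, map_pow, map_prod] at h3
    rw [← h3]
    refine Finset.prod_congr rfl fun h _ => ?_
    rw [map_prod]
    refine Finset.prod_congr rfl fun a _ => ?_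
    rw [map_zpow₀]
    congr 1
    change _ = γ.symm ((γ * (m'.j h : Gl p M)) (co (U a)))
    rw [AlgEquiv.mul_apply, γ.symm_apply_apply, hcoγ, m'.ac_j, hact]
  -- natural exponents
  have hnz : (0 : ℤ) < n := by exact_mod_cast hn0
  obtain ⟨e1, he1⟩ : ∃ e1 : H → FP → ℕ, ∀ h a, ∃ d : ℤ,
      (e1 h a : ℤ) = E' (γ * (m'.j h : Gl p M)) a + n * d := by
    refine ⟨fun h a => (E' (γ * (m'.j h : Gl p M)) a % n).toNat, fun h a =>
      ⟨-(E' (γ * (m'.j h : Gl p M)) a / n), ?_⟩⟩
    rw [Int.toNat_of_nonneg (Int.emod_nonneg _ hnz.ne')]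
    have := Int.emod_add_mul_ediv (E' (γ * (m'.j h : Gl p M)) a) n
    linarith
  choose d hd using he1
  have hrel3 : ∏ h : H, ∏ a, co (Bs.act (evg k F (gq F)) C'.act h (U a)) ^ e1 h a =
      γ.symm c1 * (γ.symm w1 * ∏ h : H, ∏ a,
        co (Bs.act (evg k F (gq F)) C'.act h (U a)) ^ d h a) ^ n := by
    rw [mul_pow, ← mul_assoc, ← hrel2, ← Finset.prod_pow, ← Finset.prod_mul_distrib]
    refine Finset.prod_congr rfl fun h _ => ?_
    rw [← Finset.prod_pow, ← Finset.prod_mul_distrib]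
    refine Finset.prod_congr rfl fun a _ => ?_
    rw [← zpow_natCast, ← zpow_natCast, ← zpow_mul, ← zpow_add₀ (hx h a), hd]
    congr 1
    ring
  -- the constant
  obtain ⟨a2, ha2⟩ := (m'.econst (γ.symm c1)).1 (IsCst.map (γ.symm : M →+* M) hc1)
  have ha20 : a2 ≠ 0 := by
    rintro rfl
    rw [C_0, map_zero, map_zero] at ha2
    exact hc10 ((map_eq_zero γ.symm).1 ha2.symm)
  obtain ⟨w2, hw2⟩ : ∃ w2 : M, w2 = γ.symm w1 * ∏ h : H, ∏ a,
      co (Bs.act (evg k F (gq F)) C'.act h (U a)) ^ d h a := ⟨_, rfl⟩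
  rw [← hw2] at hrel3
  have hcoprod : ∏ h : H, ∏ a, co (Bs.act (evg k F (gq F)) C'.act h (U a)) ^ e1 h a =
      co (∏ h : H, ∏ a, (Bs.act (evg k F (gq F)) C'.act h (U a)) ^ e1 h a) := by
    rw [← hcoR, map_prod]
    refine Finset.prod_congr rfl fun h _ => ?_
    rw [map_prod]
    refine Finset.prod_congr rfl fun a _ => ?_
    rw [map_pow]
    rfl
  have hCC : co (algebraMap F[X] (Fam k F (gq F) R) (C a2⁻¹)) * γ.symm c1 = 1 := by
    rw [← ha2]
    change co _ * co (algebraMap F[X] (Fam k F (gq F) R) (C a2)) = 1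
    rw [← co_mul, ← map_mul, ← C_mul, inv_mul_cancel₀ ha20, C_1, map_one, ← hcoR, map_one]
  obtain ⟨z2, hz2⟩ := oc_root p M w2 n hn0 ⟨m'.e (algebraMap F[X] (Fam k F (gq F) R) (C a2⁻¹) *
      ∏ h : H, ∏ a, (Bs.act (evg k F (gq F)) C'.act h (U a)) ^ e1 h a), by
    change co _ = _
    rw [co_mul, ← hcoprod, hrel3, ← mul_assoc, hCC, one_mul]⟩
  have hz3 : co (m'.e.symm z2) = w2 := by
    change ((m'.e (m'.e.symm z2) : Oc p M) : M) = w2
    rw [m'.e.apply_symm_apply, hz2]
  have hrel4 : ∏ h : H, ∏ a, (Bs.act (evg k F (gq F)) C'.act h (U a)) ^ e1 h a =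
      algebraMap F[X] (Fam k F (gq F) R) (C a2) * (m'.e.symm z2) ^ n := by
    apply co_inj
    rw [← hcoprod, hrel3, ← hz3, co_mul]
    congr 1
    · exact ha2.symm
    · rw [← hcoR, ← hcoR, map_pow]
  -- apply `as_down`
  have hdown := as_down p C' s m hs hm hF β hβ n hn Θ hinj halg hΘ hfix (fun c hc0 z => by
      have h1 := htau c _ (sh (q 0)) (hsh _) (by
        rw [hc0, hq, AddSubgroup.coe_zero, map_zero]) z
      rw [h1, hsh0]) u sh hgood (fun h a => e1 h (q.symm a)) a2 ha20 (m'.e.symm z2) (by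
      rw [← hrel4, finprod_eq_prod_of_fintype]
      refine Finset.prod_congr rfl fun h _ => ?_
      rw [finprod_eq_prod_of_fintype]
      refine (Fintype.prod_equiv q _ _ fun a => ?_).symm
      rw [q.symm_apply_apply])
  -- the congruences
  have hcong : ∀ h h' : H, ∀ a : FP, (n : ℤ) ∣ E' (γ * (m'.j h : Gl p M)) a -
      E' (γ * (m'.j h' : Gl p M)) a := by
    intro h1 h2 a
    have h3 := (Nat.modEq_iff_dvd.1 (hdown (q a) h2 h1))
    rw [q.symm_apply_apply, hd, hd] at h3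
    have h4 : E' (γ * (m'.j h1 : Gl p M)) a - E' (γ * (m'.j h2 : Gl p M)) a =
        (E' (γ * (m'.j h1 : Gl p M)) a + n * d h1 a -
          (E' (γ * (m'.j h2 : Gl p M)) a + n * d h2 a)) - n * (d h1 a - d h2 a) := by ring
    rw [h4]
    exact dvd_sub h3 (dvd_mul_right _ _)
  -- the end
  obtain ⟨h1, hh1⟩ := hsupp (h * γ) (by rw [map_mul, (hφG h).1 hh, one_mul])
  have hfin := ind_end p n Fact.out hn t ht (E (h * γ)) (E γ) l (fun a => by
    have h2 := hcong h1 1 a
    rw [hh1, map_one, Subgroup.coe_one, mul_one,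
      hEl (h * γ) (by rw [map_mul, (hφG h).1 hh, one_mul]), hEl γ rfl] at h2
    exact h2) (q.symm (aa j)) (hEt _ _) (hEt _ _)
  rw [hEaa, hEaa] at hfin
  exact (Nat.modEq_iff_dvd.2 hfin).symm

end Pool.Agent.AB3
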