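import Pool.Agent.Lib.MP_5de024_nt.S.Defs

/-!
# The trace polynomial (part AS of project AB3, piece TrA)
-/

set_option autoImplicit false
set_option linter.unusedSectionVars false

namespace Pool.Agent.AB3

open Pool.Agent.AB Polynomial

/-- the trace polynomial `Σ_{i<m} (b X) ^ (P ^ i)` -/
noncomputable def trP {F : Type} [Field F] (P m : ℕ) (b : F) : F[X] :=
  ∑ i ∈ Finset.range m, (C b * X) ^ P ^ i

variable {F : Type} [Field F]

theorem trP_eval (P m : ℕ) (b c : F) :
    (trP P m b).eval c = ∑ i ∈ Finset.range m, (b * c) ^ P ^ i := by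
  simp only [trP, eval_finsetSum, eval_pow, eval_mul, eval_C, eval_X]

private theorem TrA_fix (P : ℕ) (hP : 1 < P) :
    Finite {z : F // z ^ P = z} ∧ Nat.card {z : F // z ^ P = z} ≤ P := by
  classical
  have hne : (X ^ P - X : F[X]) ≠ 0 := FiniteField.X_pow_card_sub_X_ne_zero F hP
  have hsub : {z : F | z ^ P = z} ⊆ ((X ^ P - X : F[X]).roots.toFinset : Set F) := by
    intro z hz
    have hz' : z ^ P = z := hz
    simp only [Finset.mem_coe, Multiset.mem_toFinset, mem_roots hne, IsRoot.def, eval_sub,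
      eval_pow, eval_X, hz', sub_self]
  have hfin : ({z : F | z ^ P = z}).Finite := (Finset.finite_toSet _).subset hsub
  refine ⟨hfin.to_subtype, ?_⟩
  have h1 : Nat.card {z : F // z ^ P = z} = ({z : F | z ^ P = z}).ncard :=
    Nat.card_coe_set_eq _
  rw [h1]
  calc ({z : F | z ^ P = z}).ncard
      ≤ ((X ^ P - X : F[X]).roots.toFinset : Set F).ncard :=
        Set.ncard_le_ncard hsub (Finset.finite_toSet _)
    _ = (X ^ P - X : F[X]).roots.toFinset.card := Set.ncard_coe_finset _
    _ ≤ Multiset.card (X ^ P - X : F[X]).roots := Multiset.toFinset_card_le _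
    _ ≤ (X ^ P - X : F[X]).natDegree := card_roots' _
    _ = P := FiniteField.X_pow_card_sub_X_natDegree_eq F hP

private theorem TrA_bij {k : Type} [Field k] [Algebra k F] (P : ℕ) (hP : 1 < P)
    (hr : Nat.card {a : k // a ^ P = a} = P) :
    ∃ f : {a : k // a ^ P = a} → {z : F // z ^ P = z},
      (∀ a, (f a : F) = algebraMap k F (a : k)) ∧ Function.Bijective f := by
  obtain ⟨hfin, hle⟩ := TrA_fix (F := F) P hP
  let f : {a : k // a ^ P = a} → {z : F // z ^ P = z} := fun a =>
    ⟨algebraMap k F (a : k), by rw [← map_pow, a.2]⟩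
  have hinj : Function.Injective f := by
    intro a a' h
    apply Subtype.ext
    exact (algebraMap k F).injective (congrArg Subtype.val h)
  refine ⟨f, fun a => rfl, ?_⟩
  have := hfin
  exact hinj.bijective_of_nat_card_le (by rw [hr]; exact hle)

variable (p : ℕ) [Fact p.Prime] [CharP F p]

/-- the elements of `k` with `a ^ P = a` form a subfield with `P` elements; its image in `F` is the
set of the roots of `X ^ P - X`; `F` is a vector space over it (for example: the subfield
`{a : F | a ^ P = a}` of `F` and `Module.card_eq_pow_finrank`) -/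
theorem tr_card [Finite F] {k : Type} [Field k] [Algebra k F] (s : ℕ) (hs : 0 < s)
    (hr : Nat.card {a : k // a ^ p ^ s = a} = p ^ s) :
    ∃ m, 0 < m ∧ Nat.card F = (p ^ s) ^ m := by
  have hP : 1 < p ^ s := Nat.one_lt_pow hs.ne' (Fact.out (p := p.Prime)).one_lt
  obtain ⟨f, _, hf⟩ := TrA_bij (F := F) (k := k) (p ^ s) hP hr
  have hcard : Nat.card {z : F // z ^ p ^ s = z} = p ^ s := by
    rw [← Nat.card_eq_of_bijective f hf, hr]
  let K0 : Subfield F :=
    { carrier := {z : F | z ^ p ^ s = z}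
      mul_mem' := by
        intro a b ha hb
        have ha' : a ^ p ^ s = a := ha
        have hb' : b ^ p ^ s = b := hb
        show (a * b) ^ p ^ s = a * b
        rw [mul_pow, ha', hb']
      one_mem' := one_pow _
      add_mem' := by
        intro a b ha hb
        have ha' : a ^ p ^ s = a := ha
        have hb' : b ^ p ^ s = b := hb
        show (a + b) ^ p ^ s = a + b
        rw [add_pow_char_pow, ha', hb']
      zero_mem' := zero_pow (by positivity)
      neg_mem' := by
        intro a ha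
        have ha' : a ^ p ^ s = a := ha
        show (-a) ^ p ^ s = -a
        have h0 : (a + -a) ^ p ^ s = 0 := by
          rw [add_neg_cancel, zero_pow (by positivity)]
        rw [add_pow_char_pow, ha'] at h0
        exact (neg_eq_of_add_eq_zero_right h0).symm
      inv_mem' := by
        intro a ha
        have ha' : a ^ p ^ s = a := ha
        show (a⁻¹) ^ p ^ s = a⁻¹
        rw [inv_pow, ha'] }
  have hK0 : Nat.card K0 = p ^ s := hcard
  have : Module.Finite K0 F := Module.Finite.of_finite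
  refine ⟨Module.finrank K0 F, Module.finrank_pos, ?_⟩
  rw [Module.natCard_eq_pow_finrank (K := K0) (V := F), hK0]

/-- `X ^ P - X` has at most `P` roots, and the images of the `P` elements of `k` are roots -/
theorem tr_fix {k : Type} [Field k] [Algebra k F] (s : ℕ) (hs : 0 < s)
    (hr : Nat.card {a : k // a ^ p ^ s = a} = p ^ s) (z : F) (hz : z ^ p ^ s = z) :
    ∃ a : k, a ^ p ^ s = a ∧ algebraMap k F a = z := by
  have hP : 1 < p ^ s := Nat.one_lt_pow hs.ne' (Fact.out (p := p.Prime)).one_lt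
  obtain ⟨f, hfa, hf⟩ := TrA_bij (F := F) (k := k) (p ^ s) hP hr
  obtain ⟨a, ha⟩ := hf.2 ⟨z, hz⟩
  refine ⟨(a : k), a.2, ?_⟩
  rw [← hfa a, ha]

/-- additivity (`add_pow_char_pow`) -/
theorem trP_comp (s m : ℕ) (b c : F) : (trP (p ^ s) m b).comp (X + C c) =
    trP (p ^ s) m b + C ((trP (p ^ s) m b).eval c) := by
  rw [trP_eval, map_sum, trP, ← Finset.sum_add_distrib, ← coe_compRingHom_apply, map_sum]
  refine Finset.sum_congr rfl fun i _ => ?_
  rw [coe_compRingHom_apply, pow_comp, mul_comp, C_comp, X_comp, mul_add, ← pow_mul, add_pow_char_pow, C_pow, C_mul]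

/-- telescoping: `b ^ P ^ m = b` -/
theorem trP_pow_sub [Finite F] (s m : ℕ) (hm : 0 < m) (hF : Nat.card F = (p ^ s) ^ m) (b : F) :
    trP (p ^ s) m b ^ p ^ s - trP (p ^ s) m b = C b * (X ^ Nat.card F - X) := by
  have h1 : trP (p ^ s) m b ^ p ^ s =
      ∑ i ∈ Finset.range m, (C b * X : F[X]) ^ (p ^ s) ^ (i + 1) := by
    rw [trP, sum_pow_char_pow]
    refine Finset.sum_congr rfl fun i _ => ?_
    rw [← pow_mul, ← pow_succ]
  rw [h1, trP, ← Finset.sum_sub_distrib,
    Finset.sum_range_sub (fun i => (C b * X : F[X]) ^ (p ^ s) ^ i) m, ← hF, pow_zero, pow_one,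
    mul_pow, ← C_pow]
  have hb : b ^ Nat.card F = b := by
    have := Fintype.ofFinite F
    rw [Nat.card_eq_fintype_card, FiniteField.pow_card]
  rw [hb]
  ring

/-- the values are fixed by the `P`-th power -/
theorem trP_val [Finite F] (s m : ℕ) (hm : 0 < m) (hF : Nat.card F = (p ^ s) ^ m) (b c : F) :
    (trP (p ^ s) m b).eval c ^ p ^ s = (trP (p ^ s) m b).eval c := by
  have h := congrArg (eval c) (trP_pow_sub p s m hm hF b)
  have hc : c ^ Nat.card F = c := by
    have := Fintype.ofFinite F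
    rw [Nat.card_eq_fintype_card, FiniteField.pow_card]
  simp only [eval_sub, eval_pow, eval_mul, eval_C, eval_X, hc, sub_self, mul_zero] at h
  exact sub_eq_zero.mp h

/-- `gb = β⁻¹ (X - β ^ (P - 1) X ^ P)`; with `y = trP (-β²)` one has `y ^ P - y = -β² (X ^ q - X)` and
`gb (y / β) = β⁻² (y - y ^ P)` -/
theorem tr_gb [Finite F] (s m : ℕ) (hm : 0 < m) (hF : Nat.card F = (p ^ s) ^ m) (β : F)
    (hβ : β ≠ 0) :
    (gb F (p ^ s) β).comp (C β⁻¹ * trP (p ^ s) m (-β ^ 2)) = X ^ Nat.card F - X := by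
  have h := trP_pow_sub p s m hm hF (-β ^ 2)
  set y := trP (p ^ s) m (-β ^ 2) with hy
  have hpos : 0 < p ^ s := pow_pos (Fact.out (p := p.Prime)).pos s
  have hc : (β ^ (p ^ s - 1) * (β⁻¹) ^ p ^ s : F) = β⁻¹ := by
    obtain ⟨t, ht⟩ : ∃ t, p ^ s = t + 1 := ⟨p ^ s - 1, by omega⟩
    rw [ht, Nat.add_sub_cancel, pow_succ, ← mul_assoc, ← mul_pow, mul_inv_cancel₀ hβ, one_pow,
      one_mul]
  have h2 : (gb F (p ^ s) β).comp (C β⁻¹ * y) = C (β⁻¹ * β⁻¹) * (y - y ^ p ^ s) := by
    rw [gb, mul_comp, sub_comp, mul_comp, C_comp, C_comp, X_comp, pow_comp, X_comp, mul_pow,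
      ← C_pow]
    have h3 : C (β ^ (p ^ s - 1)) * (C ((β⁻¹) ^ p ^ s) * y ^ p ^ s) = C β⁻¹ * y ^ p ^ s := by
      rw [← mul_assoc, ← C_mul, hc]
    rw [h3, C_mul]
    ring
  have h4 : y - y ^ p ^ s = C (β ^ 2) * (X ^ Nat.card F - X) := by
    have h5 : y - y ^ p ^ s = -(y ^ p ^ s - y) := by ring
    rw [h5, h, C_neg]
    ring
  rw [h2, h4, ← mul_assoc, ← C_mul]
  have h6 : β⁻¹ * β⁻¹ * β ^ 2 = 1 := by
    field_simp
  rw [h6, C_1, one_mul]

end Pool.Agent.AB3
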