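import Mathlib

/-!
# Differences modulo `n` (part AS of project AB3, piece Zs)
-/

set_option autoImplicit false
set_option linter.unusedSectionVars false

namespace Pool.Agent.AB3

/-- the difference operator -/
def dif {A : Type} [AddCommGroup A] (t : A) (f : A → ℤ) : A → ℤ := fun a => f (a - t) - f a

private theorem Zs_step {A : Type} [AddCommGroup A] (p n : ℕ) (hn : n.Coprime p) (t : A)
    (ht : p • t = 0) (g : A → ℤ) (h : ∀ a, (n : ℤ) ∣ dif t (dif t g) a) (a : A) :
    (n : ℤ) ∣ dif t g a := by
  have h1 : ∀ k : ℕ, (n : ℤ) ∣ dif t g (a - k • t) - dif t g a := by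
    intro k
    induction k with
    | zero => simp
    | succ k ih =>
      have h2 := h (a - k • t)
      have h3 : a - (k + 1) • t = a - k • t - t := by rw [succ_nsmul, sub_sub]
      have h4 : dif t g (a - (k + 1) • t) - dif t g a
          = dif t (dif t g) (a - k • t) + (dif t g (a - k • t) - dif t g a) := by
        rw [h3]
        show _ = (dif t g (a - k • t - t) - dif t g (a - k • t)) + _
        ring
      rw [h4]
      exact dvd_add h2 ih
  have h5 : ∀ k : ℕ, (n : ℤ) ∣ g (a - k • t) - g a - k * dif t g a := by
    intro k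
    induction k with
    | zero => simp
    | succ k ih =>
      have h3 : a - (k + 1) • t = a - k • t - t := by rw [succ_nsmul, sub_sub]
      have h4 : g (a - (k + 1) • t) - g a - ((k + 1 : ℕ) : ℤ) * dif t g a
          = (dif t g (a - k • t) - dif t g a) + (g (a - k • t) - g a - k * dif t g a) := by
        rw [h3]
        have h6 : dif t g (a - k • t) = g (a - k • t - t) - g (a - k • t) := rfl
        rw [h6]
        push_cast
        ring
      rw [h4]
      exact dvd_add (h1 k) ih
  have h6 := h5 p
  rw [ht, sub_zero, sub_self, zero_sub, dvd_neg] at h6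
  have h7 : IsCoprime (n : ℤ) (p : ℤ) := Nat.isCoprime_iff_coprime.mpr hn
  exact h7.dvd_of_dvd_mul_left h6

/-- If `dif t ^ l` kills `f` modulo `n` then so does `dif t`: in `(A → ZMod n)` let `z` be the
translation; `z ^ p = 1` (as `p • t = 0`), so `0 = z ^ p - 1 = (z - 1) (p + (z - 1) g)`, hence
`(z - 1)² v = 0` implies `p (z - 1) v = 0` and `(z - 1) v = 0` (`p` is invertible modulo `n`); induct
on `l` -/
theorem dif_iter {A : Type} [AddCommGroup A] (p n : ℕ) (hp : p.Prime) (hn : n.Coprime p) (t : A)
    (ht : p • t = 0) (f : A → ℤ) (l : ℕ) (h : ∀ a, (n : ℤ) ∣ ((dif t)^[l] f) a) (a : A) :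
    (n : ℤ) ∣ dif t f a := by
  rcases l with _ | l
  · exact dvd_sub (h _) (h _)
  · induction l with
    | zero => exact h a
    | succ l ih =>
      refine ih fun b => ?_
      rw [Function.iterate_succ_apply'] at *
      refine Zs_step p n hn t ht ((dif t)^[l] f) (fun c => ?_) b
      have := h c
      rw [Function.iterate_succ_apply'] at this
      exact this

/-- additivity -/
theorem dif_iter_sub {A : Type} [AddCommGroup A] (t : A) (f g : A → ℤ) (l : ℕ) :
    (dif t)^[l] (fun a => f a - g a) = fun a => ((dif t)^[l] f) a - ((dif t)^[l] g) a := by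
  induction l with
  | zero => rfl
  | succ l ih =>
    rw [Function.iterate_succ_apply', Function.iterate_succ_apply', Function.iterate_succ_apply',
      ih]
    funext a
    show _ - _ - (_ - _) = (_ - _) - (_ - _)
    ring

end Pool.Agent.AB3
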